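import Mathlib

set_option autoImplicit false

/-!
Counting ordered cliques: lemmas of helper59 (MP_79ff05_co, Supersaturation).
-/

open Finset

namespace Pool.Agent.H58.SS

universe u v

open scoped Classical in
/-- The ordered `s`-cliques of a finite graph. -/
noncomputable def oc {V : Type u} [Fintype V] (G : SimpleGraph V) (s : ℕ) : Finset (Fin s → V) :=
  univ.filter (fun f => ∀ i j, i ≠ j → G.Adj (f i) (f j))

section basic

variable {V : Type u} [Fintype V]

lemma mem_oc {G : SimpleGraph V} {s : ℕ} {f : Fin s → V} :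
    f ∈ oc G s ↔ ∀ i j, i ≠ j → G.Adj (f i) (f j) := by
  simp [oc]

lemma oc_inj {G : SimpleGraph V} {s : ℕ} {f : Fin s → V} (hf : f ∈ oc G s) :
    Function.Injective f := by
  intro i j hij
  by_contra hne
  exact (mem_oc.1 hf i j hne).ne hij

open scoped Classical in
lemma oc_card (G : SimpleGraph V) (s : ℕ) :
    (oc G s).card = s.factorial * (G.cliqueSet s).ncard := by
  have h1 : (G.cliqueSet s).ncard = (G.cliqueFinset s).card := by
    rw [← SimpleGraph.coe_cliqueFinset, Set.ncard_coe_finset]
  rw [h1]
  have H : ∀ f ∈ oc G s, univ.image f ∈ G.cliqueFinset s := by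
    intro f hf
    rw [SimpleGraph.mem_cliqueFinset_iff, SimpleGraph.isNClique_iff]
    constructor
    · intro a ha b hb hab
      simp only [coe_image, coe_univ, Set.image_univ, Set.mem_range] at ha hb
      obtain ⟨i, rfl⟩ := ha
      obtain ⟨j, rfl⟩ := hb
      exact mem_oc.1 hf i j (fun h => hab (by rw [h]))
    · rw [card_image_of_injective _ (oc_inj hf)]
      simp
  rw [card_eq_sum_card_fiberwise (f := fun f : Fin s → V => univ.image f) H]
  rw [sum_const_nat (m := s.factorial)]
  · ring
  intro t ht
  rw [SimpleGraph.mem_cliqueFinset_iff, SimpleGraph.isNClique_iff] at ht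
  obtain ⟨htc, hts⟩ := ht
  have hcard : Fintype.card (Fin s ≃ t) = s.factorial := by
    have e : Fin s ≃ t := Fintype.equivOfCardEq (by simp [hts])
    rw [Fintype.card_equiv e, Fintype.card_fin]
  rw [← hcard, ← card_univ]
  symm
  apply card_bij (fun (e : Fin s ≃ t) _ => fun i => (e i : V))
  · intro e _
    simp only [mem_filter]
    constructor
    · rw [mem_oc]
      intro i j hij
      exact htc (e i).2 (e j).2 (fun h => hij (e.injective (Subtype.ext h)))
    · ext a
      simp only [mem_image, mem_univ, true_and]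
      constructor
      · rintro ⟨i, rfl⟩
        exact (e i).2
      · intro ha
        exact ⟨e.symm ⟨a, ha⟩, by simp⟩
  · intro e _ e' _ h
    ext i
    exact congrFun h i
  · intro f hf
    simp only [mem_filter] at hf
    obtain ⟨hf, him⟩ := hf
    have hmem : ∀ i, f i ∈ t := fun i => by rw [← him]; simp
    refine ⟨Equiv.ofBijective (fun i => (⟨f i, hmem i⟩ : t)) ⟨?_, ?_⟩, mem_univ _, ?_⟩
    · intro i j hij
      exact oc_inj hf (by simpa using hij)
    · rintro ⟨a, ha⟩
      rw [← him] at ha
      simp only [mem_image, mem_univ, true_and] at ha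
      obtain ⟨i, hi⟩ := ha
      exact ⟨i, Subtype.ext hi⟩
    · funext i
      rfl

lemma cliqueFree_iff (G : SimpleGraph V) (s : ℕ) : G.CliqueFree s ↔ oc G s = ∅ := by
  classical
  rw [← SimpleGraph.cliqueSet_eq_empty_iff, ← Finset.card_eq_zero, oc_card,
    ← Set.ncard_eq_zero (Set.toFinite _)]
  have : s.factorial ≠ 0 := Nat.factorial_ne_zero s
  rw [mul_eq_zero]
  tauto

open scoped Classical in
lemma oc_two (G : SimpleGraph V) : (oc G 2).card = 2 * G.edgeSet.ncard := by
  have h1 : G.edgeSet.ncard = G.edgeFinset.card := by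
    rw [← SimpleGraph.coe_edgeFinset, Set.ncard_coe_finset]
  rw [h1, ← SimpleGraph.dart_card_eq_twice_card_edges, ← card_univ]
  symm
  apply card_bij (fun (d : G.Dart) _ => ![d.fst, d.snd])
  · intro d _
    rw [mem_oc]
    intro i j hij
    have h := d.adj
    have h' := d.adj.symm
    fin_cases i <;> fin_cases j <;> simp_all
  · intro d _ d' _ h
    have h0 := congrFun h 0
    have h1 := congrFun h 1
    simp at h0 h1
    exact SimpleGraph.Dart.ext _ _ (Prod.ext h0 h1)
  · intro f hf
    refine ⟨⟨(f 0, f 1), mem_oc.1 hf 0 1 (by simp)⟩, mem_univ _, ?_⟩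
    funext i
    fin_cases i <;> simp

end basic

section constructions

variable {V : Type u} [Fintype V] {W : Type v} [Fintype W]

lemma mem_oc_comap {α : Type*} [Fintype α] {G : SimpleGraph V} {φ : α → V} {s : ℕ} {g : Fin s → α} :
    g ∈ oc (G.comap φ) s ↔ φ ∘ g ∈ oc G s := by
  simp [mem_oc]

/-- ordered cliques of a blow-up. -/
lemma oc_blowup {α : Type*} [Fintype α] (H : SimpleGraph α) (s t : ℕ) :
    (oc (H.comap (Prod.fst : α × Fin t → α)) s).card = t ^ s * (oc H s).card := by
  classical
  have : (oc (H.comap (Prod.fst : α × Fin t → α)) s).card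
      = (oc H s ×ˢ (univ : Finset (Fin s → Fin t))).card := by
    apply card_bij (fun f _ => ((fun i => (f i).1), (fun i => (f i).2)))
    · intro f hf
      rw [mem_product]
      exact ⟨mem_oc.2 (fun i j hij => mem_oc.1 hf i j hij), mem_univ _⟩
    · intro f _ f' _ h
      funext i
      have h1 := congrFun (congrArg Prod.fst h) i
      have h2 := congrFun (congrArg Prod.snd h) i
      exact Prod.ext h1 h2
    · rintro ⟨f, g⟩ h
      rw [mem_product] at h
      refine ⟨fun i => (f i, g i), ?_, rfl⟩
      exact mem_oc.2 (fun i j hij => mem_oc.1 h.1 i j hij)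
  rw [this, card_product]
  simp [mul_comm]

lemma oc_iso {G : SimpleGraph V} {H : SimpleGraph W} (e : G ≃g H) (s : ℕ) :
    (oc G s).card = (oc H s).card := by
  apply card_bij (fun f _ => fun i => e (f i))
  · intro f hf
    rw [mem_oc] at hf ⊢
    intro i j hij
    exact e.map_adj_iff.2 (hf i j hij)
  · intro f _ f' _ h
    funext i
    exact e.injective (congrFun h i)
  · intro f hf
    refine ⟨fun i => e.symm (f i), ?_, by funext i; simp⟩
    rw [mem_oc] at hf ⊢
    intro i j hij
    exact e.symm.map_adj_iff.2 (hf i j hij)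

end constructions

section sampling

variable {W : Type u} [Fintype W]

/-- Fibre counting for precomposition with an injective map. -/
lemma card_comp {α : Type*} {β : Type*} [Fintype α] [Fintype β] [DecidableEq β]
    (g : α → β) (hg : Function.Injective g) (P : Finset (α → W))
    [DecidablePred (fun φ : β → W => φ ∘ g ∈ P)] :
    (univ.filter (fun φ : β → W => φ ∘ g ∈ P)).card * (Fintype.card W) ^ (Fintype.card α)
      = P.card * (Fintype.card W) ^ (Fintype.card β) := by
  classical
  have h1 : (univ.filter (fun φ : β → W => φ ∘ g ∈ P)).card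
      = (P ×ˢ (univ : Finset (((Set.range g)ᶜ : Set β) → W))).card := by
    apply card_bij (fun (φ : β → W) _ =>
      ((φ ∘ g, fun c => φ c) : (α → W) × (((Set.range g)ᶜ : Set β) → W)))
    · intro φ hφ
      rw [mem_filter] at hφ
      rw [mem_product]
      exact ⟨hφ.2, mem_univ _⟩
    · intro φ _ φ' _ h
      funext b
      by_cases hb : b ∈ Set.range g
      · obtain ⟨a, rfl⟩ := hb
        exact congrFun (congrArg Prod.fst h) a
      · exact congrFun (congrArg Prod.snd h) ⟨b, hb⟩
    · rintro ⟨ψ, χ⟩ h
      rw [mem_product] at h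
      have key : (fun b => if hb : b ∈ Set.range g then ψ hb.choose else χ ⟨b, hb⟩) ∘ g = ψ := by
        funext a
        have ha : g a ∈ Set.range g := ⟨a, rfl⟩
        simp only [Function.comp, dif_pos ha]
        congr 1
        exact hg ha.choose_spec
      refine ⟨fun b => if hb : b ∈ Set.range g then ψ hb.choose else χ ⟨b, hb⟩, ?_, ?_⟩
      · rw [mem_filter, key]
        exact ⟨mem_univ _, h.1⟩
      · refine Prod.ext key ?_
        funext c
        have hc : (c : β) ∉ Set.range g := c.2
        simp only [dif_neg hc]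
  have h2 : Fintype.card ((Set.range g)ᶜ : Set β) + Fintype.card α = Fintype.card β := by
    have h3 := Fintype.card_compl_set (Set.range g)
    have h4 : Fintype.card (Set.range g) = Fintype.card α := Set.card_range_of_injective hg
    have h5 : Fintype.card α ≤ Fintype.card β := Fintype.card_le_of_injective g hg
    omega
  rw [h1, card_product, card_univ, Fintype.card_fun, mul_assoc, ← pow_add, h2]

open scoped Classical in
lemma card_injective (M s : ℕ) :
    (univ.filter (fun g : Fin s → Fin M => Function.Injective g)).card = M.descFactorial s := by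
  rw [← Fintype.card_subtype, Fintype.card_congr (Equiv.subtypeInjectiveEquivEmbedding _ _),
    Fintype.card_embedding_eq]
  simp

/-- First moment. -/
lemma sum_oc (G : SimpleGraph W) (M s : ℕ) :
    (∑ φ : Fin M → W, (oc (G.comap φ) s).card) * (Fintype.card W) ^ s
      = M.descFactorial s * (oc G s).card * (Fintype.card W) ^ M := by
  classical
  have h1 : (∑ φ : Fin M → W, (oc (G.comap φ) s).card)
      = ∑ g : Fin s → Fin M, (univ.filter (fun φ : Fin M → W => φ ∘ g ∈ oc G s)).card := by
    have : ∀ φ : Fin M → W, (oc (G.comap φ) s).card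
        = ∑ g : Fin s → Fin M, if φ ∘ g ∈ oc G s then 1 else 0 := by
      intro φ
      rw [← card_filter]
      congr 1
      ext g
      rw [mem_filter]
      constructor
      · intro h
        exact ⟨mem_univ _, mem_oc.2 (fun i j hij => mem_oc.1 h i j hij)⟩
      · intro h
        exact mem_oc.2 (fun i j hij => mem_oc.1 h.2 i j hij)
    simp_rw [this]
    rw [sum_comm]
    simp_rw [card_filter]
  rw [h1, ← card_injective, card_eq_sum_ones (univ.filter _), sum_mul, sum_mul, sum_mul,
    sum_filter]
  apply sum_congr rfl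
  intro g _
  split_ifs with hg
  · have := card_comp (W := W) g hg (oc G s)
    simp only [Fintype.card_fin] at this
    rw [this, one_mul]
  · have : (univ.filter (fun φ : Fin M → W => φ ∘ g ∈ oc G s)) = ∅ := by
      rw [filter_eq_empty_iff]
      intro φ _ h
      exact hg (Function.Injective.of_comp (oc_inj h))
    rw [this]
    simp

/-- Second moment for edges. -/
lemma sum_oc_sq (G : SimpleGraph W) (M : ℕ) :
    (∑ φ : Fin M → W, (oc (G.comap φ) 2).card ^ 2) * (Fintype.card W) ^ 4
      ≤ (M ^ 4 * (oc G 2).card ^ 2 + 4 * M ^ 3 * (Fintype.card W) ^ 4) * (Fintype.card W) ^ M := by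
  classical
  set n := Fintype.card W with hn
  have h1 : (∑ φ : Fin M → W, (oc (G.comap φ) 2).card ^ 2)
      = ∑ x : (Fin 2 → Fin M) × (Fin 2 → Fin M),
        (univ.filter (fun φ : Fin M → W => φ ∘ x.1 ∈ oc G 2 ∧ φ ∘ x.2 ∈ oc G 2)).card := by
    have : ∀ φ : Fin M → W, (oc (G.comap φ) 2).card ^ 2
        = ∑ x : (Fin 2 → Fin M) × (Fin 2 → Fin M),
          if φ ∘ x.1 ∈ oc G 2 ∧ φ ∘ x.2 ∈ oc G 2 then 1 else 0 := by
      intro φ
      rw [sq, ← card_product, ← card_filter]
      congr 1
      ext x
      rw [mem_filter, mem_product]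
      constructor
      · intro h
        exact ⟨mem_univ _, mem_oc.2 (fun i j hij => mem_oc.1 h.1 i j hij),
          mem_oc.2 (fun i j hij => mem_oc.1 h.2 i j hij)⟩
      · intro h
        exact ⟨mem_oc.2 (fun i j hij => mem_oc.1 h.2.1 i j hij),
          mem_oc.2 (fun i j hij => mem_oc.1 h.2.2 i j hij)⟩
    simp_rw [this]
    rw [sum_comm]
    simp_rw [card_filter]
  rw [h1]
  -- the product set
  let P : Finset (Fin 2 ⊕ Fin 2 → W) :=
    univ.filter (fun ψ => ψ ∘ Sum.inl ∈ oc G 2 ∧ ψ ∘ Sum.inr ∈ oc G 2)
  have hP : P.card = (oc G 2).card ^ 2 := by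
    rw [sq, ← card_product]
    apply card_bij (fun ψ _ => (ψ ∘ Sum.inl, ψ ∘ Sum.inr))
    · intro ψ hψ
      rw [mem_filter] at hψ
      rw [mem_product]
      exact hψ.2
    · intro ψ _ ψ' _ h
      funext x
      rcases x with x | x
      · exact congrFun (congrArg Prod.fst h) x
      · exact congrFun (congrArg Prod.snd h) x
    · rintro ⟨f, g⟩ h
      rw [mem_product] at h
      refine ⟨Sum.elim f g, ?_, ?_⟩
      · rw [mem_filter]
        exact ⟨mem_univ _, by simpa using h⟩
      · simp
  have key : ∀ x : (Fin 2 → Fin M) × (Fin 2 → Fin M),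
      (univ.filter (fun φ : Fin M → W => φ ∘ x.1 ∈ oc G 2 ∧ φ ∘ x.2 ∈ oc G 2)).card * n ^ 4
        ≤ (oc G 2).card ^ 2 * n ^ M
          + (∑ i : Fin 2, ∑ j : Fin 2, if x.1 i = x.2 j then 1 else 0) * (n ^ 4 * n ^ M) := by
    rintro ⟨g, g'⟩
    by_cases hd : ∃ i j, g i = g' j
    · obtain ⟨i, j, hij⟩ := hd
      have h2 : (univ.filter (fun φ : Fin M → W => φ ∘ g ∈ oc G 2 ∧ φ ∘ g' ∈ oc G 2)).card
          ≤ n ^ M := by
        calc _ ≤ (univ : Finset (Fin M → W)).card := card_le_card (filter_subset _ _)
          _ = n ^ M := by rw [card_univ, Fintype.card_fun, Fintype.card_fin]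
      have h3 : 1 ≤ ∑ i : Fin 2, ∑ j : Fin 2, if g i = g' j then 1 else 0 := by
        calc 1 = if g i = g' j then 1 else 0 := by rw [if_pos hij]
          _ ≤ ∑ j : Fin 2, if g i = g' j then 1 else 0 :=
            single_le_sum (f := fun j => if g i = g' j then 1 else 0)
              (fun _ _ => Nat.zero_le _) (mem_univ j)
          _ ≤ _ := single_le_sum (f := fun i => ∑ j : Fin 2, if g i = g' j then 1 else 0)
              (fun _ _ => Nat.zero_le _) (mem_univ i)
      calc _ ≤ n ^ M * n ^ 4 := Nat.mul_le_mul_right _ h2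
        _ = 1 * (n ^ 4 * n ^ M) := by ring
        _ ≤ _ := le_add_left (Nat.mul_le_mul_right _ h3)
    · push Not at hd
      apply le_add_right
      by_cases hinj : Function.Injective g ∧ Function.Injective g'
      · have hI : Function.Injective (Sum.elim g g') := by
          rintro (a | a) (b | b) h
          · exact congrArg _ (hinj.1 h)
          · exact absurd h (hd a b)
          · exact absurd h.symm (hd b a)
          · exact congrArg _ (hinj.2 h)
        have := card_comp (W := W) (Sum.elim g g') hI P
        simp only [Fintype.card_sum, Fintype.card_fin] at this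
        rw [hP] at this
        rw [← this]
        apply le_of_eq
        congr 2
        ext φ
        simp only [mem_filter, mem_univ, true_and, P]
        rfl
      · have : (univ.filter (fun φ : Fin M → W => φ ∘ g ∈ oc G 2 ∧ φ ∘ g' ∈ oc G 2)) = ∅ := by
          rw [filter_eq_empty_iff]
          intro φ _ h
          exact hinj ⟨Function.Injective.of_comp (oc_inj h.1),
            Function.Injective.of_comp (oc_inj h.2)⟩
        rw [this]
        simp
  have h4 : (∑ x : (Fin 2 → Fin M) × (Fin 2 → Fin M),
      ∑ i : Fin 2, ∑ j : Fin 2, if x.1 i = x.2 j then 1 else 0) ≤ 4 * M ^ 3 := by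
    have h5 : ∀ i j : Fin 2, (∑ x : (Fin 2 → Fin M) × (Fin 2 → Fin M),
        if x.1 i = x.2 j then 1 else 0) ≤ M ^ 3 := by
      intro i j
      rw [Fintype.sum_prod_type]
      have h6 : ∀ g : Fin 2 → Fin M, (∑ g' : Fin 2 → Fin M, if g i = g' j then 1 else 0) ≤ M := by
        intro g
        rw [← card_filter]
        calc _ ≤ (univ : Finset (Fin M)).card := by
              apply card_le_card_of_injOn (fun g' => g' (1 - j)) (fun _ _ => mem_univ _)
              intro a ha b hb hab
              simp only [coe_filter, Set.mem_ofPred_eq, mem_univ, true_and] at ha hb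
              funext k
              by_cases hk : k = j
              · rw [hk, ← ha, ← hb]
              · have : k = 1 - j := by
                  revert hk
                  fin_cases k <;> fin_cases j <;> decide
                rw [this]
                exact hab
          _ = M := by simp
      calc _ ≤ ∑ g : Fin 2 → Fin M, M := sum_le_sum (fun g _ => h6 g)
        _ = M ^ 3 := by
          rw [sum_const, card_univ, Fintype.card_fun, Fintype.card_fin, Fintype.card_fin,
            smul_eq_mul]
          ring
    rw [sum_comm]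
    calc _ = ∑ i : Fin 2, ∑ j : Fin 2, (∑ x : (Fin 2 → Fin M) × (Fin 2 → Fin M),
        if x.1 i = x.2 j then 1 else 0) := by
          apply sum_congr rfl
          intro i _
          rw [sum_comm]
      _ ≤ ∑ i : Fin 2, ∑ j : Fin 2, M ^ 3 := sum_le_sum (fun i _ => sum_le_sum (fun j _ => h5 i j))
      _ = 4 * M ^ 3 := by simp; ring
  rw [sum_mul]
  calc _ ≤ ∑ x : (Fin 2 → Fin M) × (Fin 2 → Fin M), ((oc G 2).card ^ 2 * n ^ M
          + (∑ i : Fin 2, ∑ j : Fin 2, if x.1 i = x.2 j then 1 else 0) * (n ^ 4 * n ^ M)) :=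
        sum_le_sum (fun x _ => key x)
    _ = M ^ 4 * ((oc G 2).card ^ 2 * n ^ M) + (∑ x : (Fin 2 → Fin M) × (Fin 2 → Fin M),
      ∑ i : Fin 2, ∑ j : Fin 2, if x.1 i = x.2 j then 1 else 0) * (n ^ 4 * n ^ M) := by
        rw [sum_add_distrib, sum_const, ← sum_mul, card_univ, Fintype.card_prod,
          Fintype.card_fun, Fintype.card_fin, Fintype.card_fin, smul_eq_mul]
        ring
    _ ≤ M ^ 4 * ((oc G 2).card ^ 2 * n ^ M) + (4 * M ^ 3) * (n ^ 4 * n ^ M) := by
        gcongr
    _ = _ := by ring

end sampling

section sampling2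

variable {W : Type u} [Fintype W]

lemma oc_card_le (G : SimpleGraph W) (s : ℕ) : (oc G s).card ≤ Fintype.card W ^ s := by
  calc (oc G s).card ≤ (univ : Finset (Fin s → W)).card := card_le_card (subset_univ _)
    _ = _ := by rw [card_univ, Fintype.card_fun, Fintype.card_fin]

lemma oc_card_le_two (G : SimpleGraph W) (s : ℕ) :
    (oc G (s + 2)).card ≤ (oc G 2).card * Fintype.card W ^ s := by
  classical
  have : (oc G (s + 2)).card ≤ (oc G 2 ×ˢ (univ : Finset (Fin s → W))).card := by
    apply card_le_card_of_injOn (fun f => (![f 0, f 1], fun i => f i.succ.succ))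
    · intro f hf
      rw [mem_coe, mem_oc] at hf
      rw [mem_coe, mem_product]
      refine ⟨?_, mem_univ _⟩
      rw [mem_oc]
      intro i j hij
      fin_cases i <;> fin_cases j <;> simp_all
    · intro f _ f' _ h
      have h1 := congrArg Prod.fst h
      have h2 := congrArg Prod.snd h
      have h10 := congrFun h1 0
      have h11 := congrFun h1 1
      simp only [Matrix.cons_val_zero, Matrix.cons_val_one] at h10 h11
      funext i
      refine Fin.cases h10 (fun i => ?_) i
      refine Fin.cases h11 (fun i => ?_) i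
      exact congrFun h2 i
  rw [card_product, card_univ, Fintype.card_fun, Fintype.card_fin] at this
  exact this

lemma descFactorial_lower (M s : ℕ) (γ : ℝ) (hM : 0 < M) (hγ : γ ≤ 1)
    (h : (s : ℝ) * s ≤ γ / 4 * M) :
    (1 - γ / 4) * (M : ℝ) ^ s ≤ (M.descFactorial s : ℝ) := by
  have hM' : (0 : ℝ) < M := by exact_mod_cast hM
  rcases Nat.eq_zero_or_pos s with rfl | hs
  · simp only [Nat.cast_zero, mul_zero, pow_zero, mul_one, Nat.descFactorial_zero, Nat.cast_one]
      at h ⊢
    have : 0 ≤ γ := by
      by_contra hneg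
      push Not at hneg
      nlinarith
    linarith
  have hs1 : (1 : ℝ) ≤ s := by exact_mod_cast hs
  have hsM : (s : ℝ) ≤ M := by nlinarith
  have hsM' : s ≤ M := by exact_mod_cast hsM
  have h1 : ((M + 1 - s : ℕ) : ℝ) ^ s ≤ (M.descFactorial s : ℝ) := by
    exact_mod_cast Nat.pow_sub_le_descFactorial M s
  have h2 : ((M + 1 - s : ℕ) : ℝ) = M * (1 + (-((s - 1) / M))) := by
    rw [Nat.cast_sub (by omega)]
    push_cast
    field_simp
    ring
  rw [h2, mul_pow] at h1
  have h3 : 1 + (s : ℝ) * (-((s - 1) / M)) ≤ (1 + (-((s - 1) / M))) ^ s := by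
    apply one_add_mul_le_pow
    have : ((s : ℝ) - 1) / M ≤ 1 := by
      rw [div_le_one hM']
      linarith
    linarith
  have h4 : (1 - γ / 4) ≤ 1 + (s : ℝ) * (-((s - 1) / M)) := by
    have : (s : ℝ) * ((s - 1) / M) ≤ γ / 4 := by
      rw [← mul_div_assoc, div_le_iff₀ hM']
      nlinarith
    linarith
  calc (1 - γ / 4) * (M : ℝ) ^ s = (M : ℝ) ^ s * (1 - γ / 4) := by ring
    _ ≤ (M : ℝ) ^ s * (1 + (-((s - 1) / M))) ^ s := by
        apply mul_le_mul_of_nonneg_left (le_trans h4 h3) (by positivity)
    _ ≤ _ := h1

end sampling2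

section lowdegree

variable {V : Type u} [Fintype V]

open scoped Classical in
lemma sum_degree_eq (G : SimpleGraph V) : ∑ v, G.degree v = (oc G 2).card := by
  rw [SimpleGraph.sum_degrees_eq_twice_card_edges, oc_two]
  congr 1
  rw [← SimpleGraph.coe_edgeFinset, Set.ncard_coe_finset]

open scoped Classical in
lemma oc_at (G : SimpleGraph V) (s : ℕ) (i : Fin (s + 1)) (v : V) :
    ((oc G (s + 1)).filter (fun f => f i = v)).card ≤ (G.degree v) ^ s := by
  have : ((oc G (s + 1)).filter (fun f => f i = v)).card
      ≤ (Fintype.piFinset (fun _ : Fin s => G.neighborFinset v)).card := by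
    apply card_le_card_of_injOn (fun f => fun j => f (i.succAbove j))
    · intro f hf
      simp only [coe_filter, Set.mem_ofPred_eq] at hf
      obtain ⟨hf, hi⟩ := hf
      rw [mem_coe, Fintype.mem_piFinset]
      intro j
      rw [SimpleGraph.mem_neighborFinset, ← hi]
      exact mem_oc.1 hf _ _ (Fin.succAbove_ne i j).symm
    · intro f hf f' hf' h
      simp only [coe_filter, Set.mem_ofPred_eq] at hf hf'
      funext k
      by_cases hk : k = i
      · rw [hk, hf.2, hf'.2]
      · obtain ⟨j, rfl⟩ := Fin.exists_succAbove_eq hk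
        exact congrFun h j
  rwa [Fintype.card_piFinset_const, SimpleGraph.card_neighborFinset_eq_degree] at this

open scoped Classical in
lemma lowdeg (G : SimpleGraph V) (s : ℕ) (D : ℝ) (hD : 0 ≤ D) (hs : 1 ≤ s) :
    ((oc G (s + 1)).card : ℝ)
      ≤ (oc (G.comap (Subtype.val : {v : V // D < G.degree v} → V)) (s + 1)).card
        + (s + 1) * (D ^ (s - 1) * (oc G 2).card) := by
  -- cliques with vertex `i` of low degree
  have h1 : ∀ i : Fin (s + 1), ((((oc G (s + 1)).filter (fun f => ¬ D < G.degree (f i))).card : ℕ) : ℝ)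
      ≤ D ^ (s - 1) * (oc G 2).card := by
    intro i
    have e1 : ((oc G (s + 1)).filter (fun f => ¬ D < G.degree (f i))).card
        = ∑ v ∈ univ.filter (fun v => ¬ D < G.degree v),
          ((oc G (s + 1)).filter (fun f => f i = v)).card := by
      rw [card_eq_sum_card_fiberwise (f := fun f : Fin (s + 1) → V => f i)
        (t := univ.filter (fun v => ¬ D < G.degree v))]
      · apply sum_congr rfl
        intro v hv
        rw [mem_filter] at hv
        congr 1
        ext f
        simp only [mem_filter]
        constructor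
        · rintro ⟨⟨a, b⟩, c⟩
          exact ⟨a, c⟩
        · rintro ⟨a, c⟩
          exact ⟨⟨a, by rw [c]; exact hv.2⟩, c⟩
      · intro f hf
        simp only [coe_filter, Set.mem_ofPred_eq] at hf
        simp only [coe_filter, Set.mem_ofPred_eq, mem_univ, true_and]
        exact hf.2
    rw [e1]
    push_cast
    calc (∑ v ∈ univ.filter (fun v => ¬ D < G.degree v),
          (((oc G (s + 1)).filter (fun f => f i = v)).card : ℝ))
        ≤ ∑ v ∈ univ.filter (fun v => ¬ D < G.degree v), D ^ (s - 1) * (G.degree v : ℝ) := by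
          apply sum_le_sum
          intro v hv
          rw [mem_filter] at hv
          have hv' : (G.degree v : ℝ) ≤ D := not_lt.1 hv.2
          have h2 : (((oc G (s + 1)).filter (fun f => f i = v)).card : ℝ) ≤ (G.degree v : ℝ) ^ s := by
            exact_mod_cast oc_at G s i v
          refine le_trans h2 ?_
          obtain ⟨s', rfl⟩ := Nat.exists_eq_add_of_le hs
          rw [add_comm 1 s', pow_succ, Nat.add_sub_cancel]
          have : (G.degree v : ℝ) ^ s' ≤ D ^ s' := pow_le_pow_left₀ (Nat.cast_nonneg _) hv' s'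
          gcongr
      _ ≤ ∑ v, D ^ (s - 1) * (G.degree v : ℝ) := by
          apply sum_le_sum_of_subset_of_nonneg (filter_subset _ _)
          intro v _ _
          positivity
      _ = D ^ (s - 1) * (oc G 2).card := by
          rw [← mul_sum, ← sum_degree_eq G]
          push_cast
          rfl
  have h2 : (oc G (s + 1)).card
      ≤ (oc (G.comap (Subtype.val : {v : V // D < G.degree v} → V)) (s + 1)).card
        + ∑ i : Fin (s + 1), ((oc G (s + 1)).filter (fun f => ¬ D < G.degree (f i))).card := by
    have e2 : (oc (G.comap (Subtype.val : {v : V // D < G.degree v} → V)) (s + 1)).card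
        = ((oc G (s + 1)).filter (fun f => ∀ i, D < G.degree (f i))).card := by
      apply card_bij (fun f _ => fun i => (f i : V))
      · intro f hf
        rw [mem_filter]
        exact ⟨mem_oc.2 (fun i j hij => mem_oc.1 hf i j hij), fun i => (f i).2⟩
      · intro f _ f' _ h
        funext i
        exact Subtype.ext (congrFun h i)
      · intro f hf
        rw [mem_filter] at hf
        exact ⟨fun i => ⟨f i, hf.2 i⟩, mem_oc.2 (fun i j hij => mem_oc.1 hf.1 i j hij), rfl⟩
    rw [e2]
    calc (oc G (s + 1)).card ≤ ((oc G (s + 1)).filter (fun f => ∀ i, D < G.degree (f i)) ∪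
          univ.biUnion (fun i => (oc G (s + 1)).filter (fun f => ¬ D < G.degree (f i)))).card := by
          apply card_le_card
          intro f hf
          rw [mem_union, mem_filter, mem_biUnion]
          by_cases h : ∀ i, D < G.degree (f i)
          · exact Or.inl ⟨hf, h⟩
          · push Not at h
            obtain ⟨i, hi⟩ := h
            exact Or.inr ⟨i, mem_univ _, by rw [mem_filter]; exact ⟨hf, not_lt.2 hi⟩⟩
      _ ≤ _ := (card_union_le _ _).trans (Nat.add_le_add_left card_biUnion_le _)
  have h3 : ((oc G (s + 1)).card : ℝ)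
      ≤ (oc (G.comap (Subtype.val : {v : V // D < G.degree v} → V)) (s + 1)).card
        + ∑ i : Fin (s + 1), (((oc G (s + 1)).filter (fun f => ¬ D < G.degree (f i))).card : ℝ) := by
    exact_mod_cast h2
  refine le_trans h3 ?_
  have h4 : ∑ i : Fin (s + 1), (((oc G (s + 1)).filter (fun f => ¬ D < G.degree (f i))).card : ℝ)
      ≤ ∑ i : Fin (s + 1), D ^ (s - 1) * (oc G 2).card := sum_le_sum (fun i _ => h1 i)
  rw [sum_const, card_univ, Fintype.card_fin, nsmul_eq_mul] at h4
  push_cast at h4
  linarith

open scoped Classical in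
lemma card_high (G : SimpleGraph V) (D : ℝ) :
    (Fintype.card {v : V // D < G.degree v} : ℝ) * D ≤ (oc G 2).card := by
  rw [Fintype.card_subtype, ← sum_degree_eq G, ← nsmul_eq_mul, ← sum_const]
  push_cast
  calc ∑ v ∈ univ.filter (fun v => D < G.degree v), D
      ≤ ∑ v ∈ univ.filter (fun v => D < G.degree v), (G.degree v : ℝ) := by
        apply sum_le_sum
        intro v hv
        rw [mem_filter] at hv
        exact hv.2.le
    _ ≤ ∑ v, (G.degree v : ℝ) := by
        apply sum_le_sum_of_subset_of_nonneg (filter_subset _ _)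
        intro v _ _
        positivity

lemma oc_comap_le {W : Type v} [Fintype W] (G : SimpleGraph V) (φ : W → V)
    (hφ : Function.Injective φ) (k : ℕ) : (oc (G.comap φ) k).card ≤ (oc G k).card := by
  apply card_le_card_of_injOn (fun f => fun i => φ (f i))
  · intro f hf
    rw [mem_coe] at hf ⊢
    exact mem_oc.2 (fun i j hij => mem_oc.1 hf i j hij)
  · intro f _ f' _ h
    funext i
    exact hφ (congrFun h i)

end lowdegree

section final

/-- The number of ordered cliques bounds, used to see that the maximum exists. -/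
lemma cliques_bdd (s m : ℕ) (hs : 2 ≤ s) (n : ℕ) (H : SimpleGraph (Fin n))
    (hm : H.edgeSet.ncard = m) : (H.cliqueSet s).ncard ≤ (2 * m) ^ s := by
  classical
  -- every clique of size `s ≥ 2` lives on vertices of positive degree
  have h1 : (oc H 2).card = 2 * m := by rw [oc_two, hm]
  have h2 : (oc H s).card ≤ (Fintype.piFinset (fun _ : Fin s =>
      (oc H 2).image (fun f => f 0))).card := by
    apply card_le_card
    intro f hf
    rw [Fintype.mem_piFinset]
    intro i
    rw [mem_image]
    obtain ⟨j, hj⟩ : ∃ j : Fin s, i ≠ j := by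
      have : Nontrivial (Fin s) := Fin.nontrivial_iff_two_le.2 hs
      obtain ⟨j, hj⟩ := exists_ne i
      exact ⟨j, hj.symm⟩
    refine ⟨![f i, f j], ?_, by simp⟩
    rw [mem_oc]
    have h := mem_oc.1 hf i j hj
    have h' := h.symm
    intro a b hab
    fin_cases a <;> fin_cases b <;> simp_all
  rw [Fintype.card_piFinset_const] at h2
  have h3 : ((oc H 2).image (fun f => f 0)).card ≤ 2 * m := h1 ▸ card_image_le
  have h4 := oc_card H s
  have h5 : 1 ≤ s.factorial := Nat.one_le_iff_ne_zero.2 (Nat.factorial_ne_zero s)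
  calc (H.cliqueSet s).ncard ≤ s.factorial * (H.cliqueSet s).ncard := Nat.le_mul_of_pos_left _ h5
    _ = (oc H s).card := h4.symm
    _ ≤ _ := h2
    _ ≤ (2 * m) ^ s := Nat.pow_le_pow_left h3 s

end final

end Pool.Agent.H58.SS
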