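import Pool.Agent.H58.SS.Hom

set_option autoImplicit false

/-!
Copies of `F`, padding with a star, graphs without a copy of `F`.
-/

open Finset

namespace Pool.Agent.H58.SS

universe u v w

/-- the number of copies of `F` in `G`: the number of subgraphs isomorphic to `F` -/
noncomputable def copies {U : Type w} {V : Type u} (F : SimpleGraph U) (G : SimpleGraph V) : ℕ :=
  {H : G.Subgraph | Nonempty (F ≃g H.coe)}.ncard

section count

variable {U : Type w} [Fintype U] {V : Type u} [Fintype V]

open scoped Classical in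
lemma inj_le (F : SimpleGraph U) (G : SimpleGraph V) :
    (univ.filter fun f : U → V => IsHom F G f ∧ Function.Injective f).card ≤
      (Fintype.card U).factorial * copies F G := by
  let cp : (f : U → V) → IsHom F G f ∧ Function.Injective f → F.Copy G := fun f hf =>
    SimpleGraph.Hom.toCopy ⟨f, fun {a b} h => hf.1 a b h⟩ hf.2
  let S : (U → V) → G.Subgraph := fun f =>
    if hf : IsHom F G f ∧ Function.Injective f then (cp f hf).toSubgraph else ⊥
  set A := univ.filter fun f : U → V => IsHom F G f ∧ Function.Injective f with hA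
  have h1 : A.card ≤ (Fintype.card U).factorial * (A.image S).card := by
    refine card_le_mul_card_image A _ fun H hH => ?_
    obtain ⟨f₀, hf₀, rfl⟩ := mem_image.1 hH
    have hmem : ∀ f ∈ A, ∀ u : U, f u ∈ (S f).verts := by
      intro f hf u
      have hf' := (mem_filter.1 hf).2
      simp only [S, dif_pos hf', SimpleGraph.Copy.toSubgraph, SimpleGraph.Subgraph.map_verts,
        SimpleGraph.Subgraph.verts_top]
      exact ⟨u, Set.mem_univ u, rfl⟩
    have hsurj : ∀ f ∈ A, ∀ v ∈ (S f).verts, ∃ u, f u = v := by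
      intro f hf v hv
      have hf' := (mem_filter.1 hf).2
      simp only [S, dif_pos hf', SimpleGraph.Copy.toSubgraph, SimpleGraph.Subgraph.map_verts,
        SimpleGraph.Subgraph.verts_top] at hv
      obtain ⟨u, -, hu⟩ := hv
      exact ⟨u, hu⟩
    set H := S f₀ with hHd
    let E₀ : U ≃ H.verts := Equiv.ofBijective (fun u => ⟨f₀ u, hmem f₀ hf₀ u⟩)
      ⟨fun a b h => (mem_filter.1 hf₀).2.2 (congrArg Subtype.val h), fun v => by
        obtain ⟨u, hu⟩ := hsurj f₀ hf₀ v.1 v.2
        exact ⟨u, Subtype.ext hu⟩⟩
    have hcard : Fintype.card (U ≃ H.verts) = (Fintype.card U).factorial :=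
      Fintype.card_equiv E₀
    rw [← hcard, ← card_univ]
    have key : ∀ f ∈ A.filter (fun f => S f = H), ∃ E : U ≃ H.verts, ∀ u, (E u : V) = f u := by
      intro f hf
      obtain ⟨hfA, hfH⟩ := mem_filter.1 hf
      refine ⟨Equiv.ofBijective (fun u => ⟨f u, hfH ▸ hmem f hfA u⟩)
        ⟨fun a b h => (mem_filter.1 hfA).2.2 (congrArg Subtype.val h), fun v => ?_⟩, fun u => rfl⟩
      obtain ⟨u, hu⟩ := hsurj f hfA v.1 (hfH.symm ▸ v.2)
      exact ⟨u, Subtype.ext hu⟩
    have : Nonempty (U ≃ H.verts) := ⟨E₀⟩
    choose! E hE using key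
    refine card_le_card_of_injOn E (fun f _ => mem_univ _) fun f hf g hg h => ?_
    funext u
    rw [← hE f hf u, ← hE g hg u, h]
  have h2 : (A.image S).card ≤ copies F G := by
    unfold copies
    rw [← Set.ncard_coe_finset]
    refine Set.ncard_le_ncard ?_ (Set.toFinite _)
    intro H hH
    obtain ⟨f, hf, rfl⟩ := mem_image.1 (mem_coe.1 hH)
    have hf' := (mem_filter.1 hf).2
    have e : S f = (cp f hf').toSubgraph := dif_pos hf'
    show Nonempty (F ≃g (S f).coe)
    rw [e]
    exact ⟨(cp f hf').isoToSubgraph⟩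
  exact h1.trans (Nat.mul_le_mul_left _ h2)

open scoped Classical in
/-- homomorphisms into a graph with `n` vertices -/
lemma cnt_id_le [DecidableEq U] (F : SimpleGraph U) (G : SimpleGraph V) (σ : ℝ) (hσ0 : 0 < σ)
    (hσ : σ ≤ 1 / 2) (hn : 0 < Fintype.card V)
    (h : (Fintype.card U : ℝ) * Fintype.card U ≤ σ / 2 * Fintype.card V) :
    cnt F G id ≤ (univ.filter fun f : U → V => IsHom F G f ∧ Function.Injective f).card +
      σ / 2 * (Fintype.card V : ℝ) ^ (Fintype.card U) := by
  have h1 : cnt F G id = ((univ.filter fun f : U → V => IsHom F G f).card : ℝ) := by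
    unfold cnt
    rw [card_filter]
    push_cast
    rfl
  have h2 : (univ.filter fun f : U → V => IsHom F G f).card ≤
      (univ.filter fun f : U → V => IsHom F G f ∧ Function.Injective f).card +
      (univ.filter fun f : U → V => ¬ Function.Injective f).card := by
    refine (card_le_card ?_).trans (card_union_le _ _)
    intro f hf
    have hf := (mem_filter.1 hf).2
    by_cases hi : Function.Injective f
    · exact mem_union_left _ (mem_filter.2 ⟨mem_univ _, hf, hi⟩)
    · exact mem_union_right _ (mem_filter.2 ⟨mem_univ _, hi⟩)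
  have h3 : (univ.filter fun f : U → V => Function.Injective f).card =
      (Fintype.card V).descFactorial (Fintype.card U) := by
    rw [← Fintype.card_subtype, Fintype.card_congr (Equiv.subtypeInjectiveEquivEmbedding _ _),
      Fintype.card_embedding_eq]
  have h4 : (univ.filter fun f : U → V => Function.Injective f).card +
      (univ.filter fun f : U → V => ¬ Function.Injective f).card =
        (Fintype.card V) ^ (Fintype.card U) := by
    rw [card_filter_add_card_filter_not, card_univ, Fintype.card_fun]
  have h5 := descFactorial_lower (Fintype.card V) (Fintype.card U) (2 * σ) hn (by linarith)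
    (by linarith)
  rw [h3] at h4
  have h4' : ((Fintype.card V).descFactorial (Fintype.card U) : ℝ) +
      ((univ.filter fun f : U → V => ¬ Function.Injective f).card : ℝ) =
        (Fintype.card V : ℝ) ^ (Fintype.card U) := by exact_mod_cast h4
  have h2' : ((univ.filter fun f : U → V => IsHom F G f).card : ℝ) ≤
      (univ.filter fun f : U → V => IsHom F G f ∧ Function.Injective f).card +
      (univ.filter fun f : U → V => ¬ Function.Injective f).card := by exact_mod_cast h2
  rw [h1]
  linarith

end count

section free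

/-- the star with `j` edges -/
lemma star_card (j : ℕ) :
    (SimpleGraph.starGraph (0 : Fin (j + 1))).edgeSet.ncard = j := by
  classical
  have h1 : (SimpleGraph.starGraph (0 : Fin (j + 1))).edgeSet.ncard =
      (SimpleGraph.starGraph (0 : Fin (j + 1))).edgeFinset.card := by
    rw [← SimpleGraph.coe_edgeFinset, Set.ncard_coe_finset]
  have h2 := (SimpleGraph.isTree_starGraph (0 : Fin (j+1))).card_edgeFinset
  rw [h1]
  simp only [Fintype.card_fin] at h2
  omega

/-- the graph with `m` disjoint edges -/
def mat (m : ℕ) : SimpleGraph (Fin m × Bool) where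
  Adj p q := p.1 = q.1 ∧ p.2 ≠ q.2
  symm := ⟨fun _ _ h => ⟨h.1.symm, h.2.symm⟩⟩
  loopless := ⟨fun _ h => h.2 rfl⟩

lemma mat_card (m : ℕ) : (mat m).edgeSet.ncard = m := by
  classical
  have h1 : (mat m).edgeSet = Set.range fun i : Fin m => s((i, false), (i, true)) := by
    ext e
    induction e using Sym2.ind with
    | _ p q =>
      rw [SimpleGraph.mem_edgeSet]
      constructor
      · rintro ⟨h1, h2⟩
        obtain ⟨i, a⟩ := p
        obtain ⟨j, b⟩ := q
        simp only at h1 h2
        subst h1
        refine ⟨i, ?_⟩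
        cases a <;> cases b
        · exact absurd rfl h2
        · rfl
        · exact Sym2.eq_swap
        · exact absurd rfl h2
      · rintro ⟨i, hi⟩
        rcases Sym2.eq_iff.1 hi with ⟨rfl, rfl⟩ | ⟨rfl, rfl⟩
        · exact ⟨rfl, by simp⟩
        · exact ⟨rfl, by simp⟩
  rw [h1, ← Set.image_univ, Set.ncard_image_of_injective]
  · simp [Set.ncard_univ]
  · intro i j h
    rcases Sym2.eq_iff.1 h with ⟨h2, -⟩ | ⟨h2, -⟩
    · exact (Prod.mk.inj h2).1
    · exact absurd (Prod.mk.inj h2).2 (by simp)

variable {U : Type w}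

/-- there is a graph with `m` edges and no copy of `F` -/
lemma exists_free (F : SimpleGraph U) (hF : 2 ≤ F.edgeSet.ncard) (m : ℕ) :
    ∃ (n : ℕ) (K : SimpleGraph (Fin n)), K.edgeSet.ncard = m ∧ F.Free K := by
  classical
  have hnt : ∃ e₁ ∈ F.edgeSet, ∃ e₂ ∈ F.edgeSet, e₁ ≠ e₂ := by
    have hfin : F.edgeSet.Finite := Set.finite_of_ncard_pos (by omega)
    obtain ⟨e₁, e₂, h1, h2, hne⟩ := (Set.one_lt_ncard_iff hfin).1 (by omega)
    exact ⟨e₁, h1, e₂, h2, hne⟩
  obtain ⟨e₁, h1, e₂, h2, hne⟩ := hnt
  by_cases hdeg : ∃ a b c, b ≠ c ∧ F.Adj a b ∧ F.Adj a c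
  · obtain ⟨a, b, c, hbc, hab, hac⟩ := hdeg
    let e := (mat m).overFinIso rfl
    refine ⟨_, (mat m).overFin rfl, ?_, ?_⟩
    · have h3 := oc_iso e 2
      rw [oc_two, oc_two, mat_card] at h3
      omega
    · rw [← SimpleGraph.free_congr_right e]
      rintro ⟨f⟩
      have h3 : (mat m).Adj (f a) (f b) := f.toHom.map_adj hab
      have h4 : (mat m).Adj (f a) (f c) := f.toHom.map_adj hac
      apply hbc
      apply f.injective
      show f b = f c
      apply Prod.ext
      · exact h3.1.symm.trans h4.1
      · have h5 := h3.2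
        have h6 := h4.2
        revert h5 h6
        cases (f a).2 <;> cases (f b).2 <;> cases (f c).2 <;> simp
  · refine ⟨m + 1, SimpleGraph.starGraph 0, star_card m, ?_⟩
    rintro ⟨f⟩
    induction e₁ using Sym2.ind with
    | _ a b =>
      induction e₂ using Sym2.ind with
      | _ c d =>
        rw [SimpleGraph.mem_edgeSet] at h1 h2
        have h3 : (SimpleGraph.starGraph (0 : Fin (m + 1))).Adj (f a) (f b) := f.toHom.map_adj h1
        have h4 : (SimpleGraph.starGraph (0 : Fin (m + 1))).Adj (f c) (f d) := f.toHom.map_adj h2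
        rw [SimpleGraph.starGraph_adj] at h3 h4
        have hno : ∀ x y z, F.Adj x y → F.Adj x z → y = z := by
          intro x y z hxy hxz
          by_contra h
          exact hdeg ⟨x, y, z, h, hxy, hxz⟩
        have hinj : ∀ x y, f x = 0 → f y = 0 → x = y := fun x y hx hy =>
          f.injective (hx.trans hy.symm)
        rcases h3.2 with h5 | h5 <;> rcases h4.2 with h6 | h6
        · have h7 := hinj _ _ h5 h6
          subst h7
          exact hne (by rw [hno _ _ _ h1 h2])
        · have h7 := hinj _ _ h5 h6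
          subst h7
          exact hne (by rw [hno _ _ _ h1 h2.symm, Sym2.eq_swap])
        · have h7 := hinj _ _ h5 h6
          subst h7
          exact hne (by rw [hno _ _ _ h1.symm h2, Sym2.eq_swap])
        · have h7 := hinj _ _ h5 h6
          subst h7
          exact hne (by rw [hno _ _ _ h1.symm h2.symm])

variable {V : Type u} [Fintype V]

/-- adding edges to a graph without homomorphism from `F` -/
lemma pad (F : SimpleGraph U) (hF : 2 ≤ F.edgeSet.ncard) (H : SimpleGraph V) (s m : ℕ) (hs : 2 ≤ s)
    (hm : (oc H 2).card ≤ 2 * m) (hno : ∀ f : U → V, ¬ IsHom F H f) :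
    ∃ (n : ℕ) (K : SimpleGraph (Fin n)), K.edgeSet.ncard = m ∧ F.Free K ∧
      (H.cliqueSet s).ncard ≤ (K.cliqueSet s).ncard := by
  classical
  by_cases h0 : (oc H 2).card = 0
  · obtain ⟨n, K, h1, h2⟩ := exists_free F hF m
    refine ⟨n, K, h1, h2, ?_⟩
    obtain ⟨s', rfl⟩ := Nat.exists_eq_add_of_le hs
    have h3 := oc_card_le_two H s'
    rw [h0, zero_mul, add_comm s' 2] at h3
    have h4 := oc_card H (2 + s')
    have h5 : 0 < (2 + s').factorial := Nat.factorial_pos _
    have h6 : (H.cliqueSet (2 + s')).ncard = 0 := by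
      rw [Nat.le_zero.1 h3] at h4
      rcases Nat.mul_eq_zero.1 h4.symm with h | h
      · omega
      · exact h
    omega
  obtain ⟨e, he⟩ := card_pos.1 (Nat.pos_of_ne_zero h0)
  have hadj : H.Adj (e 0) (e 1) := mem_oc.1 he 0 1 (by simp)
  rw [oc_two] at hm
  obtain ⟨j, hj⟩ := Nat.exists_eq_add_of_le (Nat.le_of_mul_le_mul_left hm (by norm_num))
  let S : SimpleGraph (Fin (j + 1)) := SimpleGraph.starGraph 0
  have hScard : S.edgeSet.ncard = j := star_card j
  let K : SimpleGraph (V ⊕ Fin (j + 1)) := H ⊕g S
  have hKcard : K.edgeSet.ncard = m := by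
    have e := SimpleGraph.edgeSetSumEquiv (G := H) (H := S)
    have : Nat.card K.edgeSet = Nat.card (H.edgeSet ⊕ S.edgeSet) := Nat.card_congr e
    rw [Nat.card_sum] at this
    simp only [Nat.card_coe_set_eq] at this
    rw [this, hScard, hj]
  have hKfree : F.Free K := by
    rintro ⟨f⟩
    let g : V ⊕ Fin (j + 1) → V := Sum.elim id fun b => if b = 0 then e 0 else e 1
    refine hno (fun u => g (f u)) fun a b hab => ?_
    have h1 : K.Adj (f a) (f b) := f.toHom.map_adj hab
    show H.Adj (g (f a)) (g (f b))
    rcases ha : f a with a' | a' <;> rcases hb : f b with b' | b' <;> rw [ha, hb] at h1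
    · exact SimpleGraph.sum_adj_inl.1 h1
    · exact absurd h1 (SimpleGraph.not_adj_sum_inl_inr _ _)
    · exact absurd h1.symm (SimpleGraph.not_adj_sum_inl_inr _ _)
    · have h2 : S.Adj a' b' := SimpleGraph.sum_adj_inr.1 h1
      simp only [S, SimpleGraph.starGraph_adj] at h2
      obtain ⟨h3, h4⟩ := h2
      simp only [g, Sum.elim_inr]
      rcases h4 with h4 | h4
      · have h5 : b' ≠ 0 := fun h => h3 (h4.trans h.symm)
        rw [if_pos h4, if_neg h5]
        exact hadj
      · have h5 : a' ≠ 0 := fun h => h3 (h.trans h4.symm)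
        rw [if_neg h5, if_pos h4]
        exact hadj.symm
  have hKoc : (oc H s).card ≤ (oc K s).card := by
    apply card_le_card_of_injOn (fun f i => Sum.inl (f i))
    · intro f hf
      rw [mem_coe, mem_oc] at hf ⊢
      intro i j hij
      exact SimpleGraph.sum_adj_inl.2 (hf i j hij)
    · intro f _ f' _ h
      funext i
      have := congrFun h i
      simpa using this
  let e := K.overFinIso rfl
  refine ⟨_, K.overFin rfl, ?_, ?_, ?_⟩
  · have h1 := oc_iso e 2
    rw [oc_two, oc_two] at h1
    omega
  · rw [← SimpleGraph.free_congr_right e]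
    exact hKfree
  · have h1 := oc_iso e s
    rw [oc_card, oc_card] at h1
    rw [oc_card, oc_card] at hKoc
    have hs : 0 < s.factorial := Nat.factorial_pos s
    have h2 := Nat.eq_of_mul_eq_mul_left hs h1
    have h3 := Nat.le_of_mul_le_mul_left hKoc hs
    omega

end free

end Pool.Agent.H58.SS
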