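import Pool.Agent.H58.SS.Hom

set_option autoImplicit false

/-!
Sampling (a modification of a lemma of helper59): a bounded sample with no defect and the right densities.
-/

open Finset

namespace Pool.Agent.H58.SS

universe u v

section sampling2

variable {W : Type u} [Fintype W]

lemma sampling (G : SimpleGraph W) (s M : ℕ) (γ κ : ℝ) (hs : 2 ≤ s)
    (hγ0 : 0 < γ) (hγ1 : γ ≤ 1) (hκ : 0 < κ) (hn : 0 < Fintype.card W)
    (hNs : κ * (Fintype.card W : ℝ) ^ s ≤ (oc G s).card)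
    (hM0 : 0 < M) (hM1 : (s : ℝ) * s ≤ γ / 4 * M) (hM2 : 24 ≤ γ ^ 3 * κ ^ 3 * M)
    (Z : (Fin M → W) → ℕ) (t : ℝ) (htlt : t < γ * κ / 4)
    (hZ : ∑ φ : Fin M → W, (Z φ : ℝ) ≤ t * (Fintype.card W : ℝ) ^ M) :
    ∃ φ : Fin M → W, Z φ = 0 ∧
      ((oc (G.comap φ) 2).card : ℝ) * (Fintype.card W : ℝ) ^ 2
        ≤ (1 + γ) * (oc G 2).card * (M : ℝ) ^ 2 ∧
      (1 - γ) * (oc G s).card * (M : ℝ) ^ s
        ≤ ((oc (G.comap φ) s).card : ℝ) * (Fintype.card W : ℝ) ^ s := by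
  classical
  by_contra hcon
  push Not at hcon
  set n : ℝ := (Fintype.card W : ℝ) with hndef
  have hn' : 0 < n := by rw [hndef]; exact_mod_cast hn
  have hM' : (0 : ℝ) < M := by exact_mod_cast hM0
  set q : ℝ := (oc G s).card / n ^ s with hq
  set p : ℝ := (oc G 2).card / n ^ 2 with hp
  have hqκ : κ ≤ q := by
    rw [hq, le_div_iff₀ (by positivity)]
    exact hNs
  have hpq : q ≤ p := by
    obtain ⟨s', rfl⟩ := Nat.exists_eq_add_of_le hs
    rw [hq, hp, div_le_div_iff₀ (by positivity) (by positivity)]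
    have h := oc_card_le_two G s'
    rw [add_comm 2 s']
    have h' : ((oc G (s' + 2)).card : ℝ) ≤ (oc G 2).card * n ^ s' := by
      rw [hndef]; exact_mod_cast h
    calc ((oc G (s' + 2)).card : ℝ) * n ^ 2 ≤ ((oc G 2).card * n ^ s') * n ^ 2 := by gcongr
      _ = _ := by ring
  have hp1 : p ≤ 1 := by
    rw [hp, div_le_one (by positivity), hndef]
    exact_mod_cast oc_card_le G 2
  have hp0 : 0 < p := by linarith
  -- moments
  have m1 : ∀ k : ℕ, (∑ φ : Fin M → W, ((oc (G.comap φ) k).card : ℝ))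
      = M.descFactorial k * ((oc G k).card / n ^ k) * n ^ M := by
    intro k
    have h := sum_oc G M k
    have h' : (∑ φ : Fin M → W, ((oc (G.comap φ) k).card : ℝ)) * n ^ k
        = M.descFactorial k * (oc G k).card * n ^ M := by
      rw [hndef]; exact_mod_cast h
    field_simp
    linarith
  have m2 : (∑ φ : Fin M → W, ((oc (G.comap φ) 2).card : ℝ) ^ 2)
      ≤ ((M : ℝ) ^ 4 * p ^ 2 + 4 * (M : ℝ) ^ 3) * n ^ M := by
    have h := sum_oc_sq G M
    have h' : (∑ φ : Fin M → W, ((oc (G.comap φ) 2).card : ℝ) ^ 2) * n ^ 4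
        ≤ ((M : ℝ) ^ 4 * ((oc G 2).card : ℝ) ^ 2 + 4 * (M : ℝ) ^ 3 * n ^ 4) * n ^ M := by
      rw [hndef]; exact_mod_cast h
    have hpe : ((oc G 2).card : ℝ) = p * n ^ 2 := by
      rw [hp]; field_simp
    rw [hpe] at h'
    have h4 : (0 : ℝ) < n ^ 4 := by positivity
    apply le_of_mul_le_mul_right _ h4
    calc _ ≤ _ := h'
      _ = _ := by ring
  have hvar : (∑ φ : Fin M → W, (((oc (G.comap φ) 2).card : ℝ) - p * (M : ℝ) ^ 2) ^ 2)
      ≤ 6 * (M : ℝ) ^ 3 * n ^ M := by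
    have e1 : (∑ φ : Fin M → W, (((oc (G.comap φ) 2).card : ℝ) - p * (M : ℝ) ^ 2) ^ 2)
        = (∑ φ : Fin M → W, ((oc (G.comap φ) 2).card : ℝ) ^ 2)
          - 2 * (p * (M : ℝ) ^ 2) * (∑ φ : Fin M → W, ((oc (G.comap φ) 2).card : ℝ))
          + (p * (M : ℝ) ^ 2) ^ 2 * n ^ M := by
      have : ∀ φ : Fin M → W, (((oc (G.comap φ) 2).card : ℝ) - p * (M : ℝ) ^ 2) ^ 2
          = ((oc (G.comap φ) 2).card : ℝ) ^ 2
            - 2 * (p * (M : ℝ) ^ 2) * ((oc (G.comap φ) 2).card : ℝ)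
            + (p * (M : ℝ) ^ 2) ^ 2 := by
        intro φ; ring
      simp_rw [this]
      rw [sum_add_distrib, sum_sub_distrib, ← mul_sum, sum_const, card_univ, Fintype.card_fun,
        Fintype.card_fin, nsmul_eq_mul]
      push_cast
      rw [← hndef]
      ring
    rw [e1, m1 2, ← hp]
    have hd2 : (M.descFactorial 2 : ℝ) = M * (M - 1) := by
      have : M.descFactorial 2 = M * (M - 1) := by
        simp [Nat.descFactorial_succ]
        ring
      rw [this]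
      push_cast
      rw [Nat.cast_sub (by omega)]
      simp
    rw [hd2]
    have hnM : 0 < n ^ M := by positivity
    have : (∑ φ : Fin M → W, ((oc (G.comap φ) 2).card : ℝ) ^ 2)
          - 2 * (p * (M : ℝ) ^ 2) * ((M : ℝ) * (M - 1) * p * n ^ M)
          + (p * (M : ℝ) ^ 2) ^ 2 * n ^ M
        ≤ (4 * (M : ℝ) ^ 3 + 2 * p ^ 2 * (M : ℝ) ^ 3) * n ^ M := by
      nlinarith [m2]
    refine le_trans this ?_
    apply mul_le_mul_of_nonneg_right _ hnM.le
    have : p ^ 2 ≤ 1 := by nlinarith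
    have hM3 : (0 : ℝ) < (M : ℝ) ^ 3 := by positivity
    nlinarith
  -- pointwise bound
  have hpt : ∀ φ : Fin M → W, ((oc (G.comap φ) s).card : ℝ)
      ≤ (1 - γ) * q * (M : ℝ) ^ s + (M : ℝ) ^ s * ((Z φ : ℝ)
        + (((oc (G.comap φ) 2).card : ℝ) - p * (M : ℝ) ^ 2) ^ 2 / (γ * p * (M : ℝ) ^ 2) ^ 2) := by
    intro φ
    have hbase : 0 ≤ (1 - γ) * q * (M : ℝ) ^ s := by
      have : 0 ≤ q := by linarith
      have : 0 ≤ 1 - γ := by linarith
      positivity
    have hY : ((oc (G.comap φ) s).card : ℝ) ≤ (M : ℝ) ^ s := by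
      have := oc_card_le (G.comap φ) s
      rw [Fintype.card_fin] at this
      exact_mod_cast this
    have hMs : (0 : ℝ) < (M : ℝ) ^ s := by positivity
    have hsq : 0 ≤ (((oc (G.comap φ) 2).card : ℝ) - p * (M : ℝ) ^ 2) ^ 2
        / (γ * p * (M : ℝ) ^ 2) ^ 2 := by positivity
    have hK0 : (0 : ℝ) ≤ (Z φ : ℝ) := Nat.cast_nonneg _
    by_cases hf : Z φ = 0
    · by_cases hx : ((oc (G.comap φ) 2).card : ℝ) * n ^ 2
        ≤ (1 + γ) * (oc G 2).card * (M : ℝ) ^ 2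
      · have h := hcon φ hf hx
        have : ((oc (G.comap φ) s).card : ℝ) < (1 - γ) * q * (M : ℝ) ^ s := by
          have hns : 0 < n ^ s := by positivity
          have hqe : ((oc G s).card : ℝ) = q * n ^ s := by rw [hq]; field_simp
          rw [hqe] at h
          apply lt_of_mul_lt_mul_right _ hns.le
          calc _ < _ := h
            _ = _ := by ring
        have h5 : 0 ≤ (M : ℝ) ^ s * ((Z φ : ℝ)
            + (((oc (G.comap φ) 2).card : ℝ) - p * (M : ℝ) ^ 2) ^ 2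
              / (γ * p * (M : ℝ) ^ 2) ^ 2) := by positivity
        linarith
      · push Not at hx
        have hpe : ((oc G 2).card : ℝ) = p * n ^ 2 := by rw [hp]; field_simp
        rw [hpe] at hx
        have hx' : (1 + γ) * p * (M : ℝ) ^ 2 < (oc (G.comap φ) 2).card := by
          have hn2 : 0 < n ^ 2 := by positivity
          apply lt_of_mul_lt_mul_right _ hn2.le
          calc _ = _ := by ring
            _ < _ := hx
        have h1 : 1 ≤ (((oc (G.comap φ) 2).card : ℝ) - p * (M : ℝ) ^ 2) ^ 2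
            / (γ * p * (M : ℝ) ^ 2) ^ 2 := by
          have hpos : 0 < γ * p * (M : ℝ) ^ 2 := mul_pos (mul_pos hγ0 hp0) (pow_pos hM' 2)
          rw [one_le_div (pow_pos hpos 2)]
          apply pow_le_pow_left₀ hpos.le
          linarith
        have h5 : (M : ℝ) ^ s * 1 ≤ (M : ℝ) ^ s * ((Z φ : ℝ)
            + (((oc (G.comap φ) 2).card : ℝ) - p * (M : ℝ) ^ 2) ^ 2
              / (γ * p * (M : ℝ) ^ 2) ^ 2) := by
          apply mul_le_mul_of_nonneg_left _ hMs.le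
          linarith
        linarith
    · have h1 : (1 : ℝ) ≤ (Z φ : ℝ) := by
        have hf' : 1 ≤ Z φ := Nat.one_le_iff_ne_zero.2 hf
        exact_mod_cast hf'
      have h5 : (M : ℝ) ^ s * 1 ≤ (M : ℝ) ^ s * ((Z φ : ℝ)
            + (((oc (G.comap φ) 2).card : ℝ) - p * (M : ℝ) ^ 2) ^ 2
              / (γ * p * (M : ℝ) ^ 2) ^ 2) := by
          apply mul_le_mul_of_nonneg_left _ hMs.le
          linarith
      linarith
  have hsum := sum_le_sum (fun φ (_ : φ ∈ (univ : Finset (Fin M → W))) => hpt φ)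
  rw [m1 s, ← hq, sum_add_distrib, sum_const, card_univ, Fintype.card_fun, Fintype.card_fin,
    nsmul_eq_mul, ← mul_sum, sum_add_distrib, ← sum_div] at hsum
  push_cast at hsum
  rw [← hndef] at hsum
  have hnM : 0 < n ^ M := by positivity
  have hMs : (0 : ℝ) < (M : ℝ) ^ s := by positivity
  have hdl := descFactorial_lower M s γ hM0 hγ1 hM1
  have hvar' : (∑ φ : Fin M → W, (((oc (G.comap φ) 2).card : ℝ) - p * (M : ℝ) ^ 2) ^ 2)
      / (γ * p * (M : ℝ) ^ 2) ^ 2 ≤ γ * κ / 4 * n ^ M := by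
    rw [div_le_iff₀ (by positivity)]
    refine le_trans hvar ?_
    have h1 : 6 * (M : ℝ) ^ 3 ≤ γ * κ / 4 * (γ * p * (M : ℝ) ^ 2) ^ 2 := by
      have h2 : γ * κ / 4 * (γ * p * (M : ℝ) ^ 2) ^ 2
          = (γ ^ 3 * κ * p ^ 2 * M) / 4 * (M : ℝ) ^ 3 := by ring
      rw [h2]
      have h3 : γ ^ 3 * κ ^ 3 * M ≤ γ ^ 3 * κ * p ^ 2 * M := by
        have : κ ^ 2 ≤ p ^ 2 := pow_le_pow_left₀ hκ.le (by linarith) 2
        have : γ ^ 3 * κ * κ ^ 2 * M ≤ γ ^ 3 * κ * p ^ 2 * M := by gcongr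
        calc _ = γ ^ 3 * κ * κ ^ 2 * M := by ring
          _ ≤ _ := this
      apply mul_le_mul_of_nonneg_right _ (by positivity)
      linarith
    calc 6 * (M : ℝ) ^ 3 * n ^ M ≤ (γ * κ / 4 * (γ * p * (M : ℝ) ^ 2) ^ 2) * n ^ M := by gcongr
      _ = _ := by ring
  -- combine
  have h1 : (M.descFactorial s : ℝ) * q * n ^ M
      ≤ n ^ M * ((1 - γ) * q * (M : ℝ) ^ s)
        + (M : ℝ) ^ s * (t * n ^ M + γ * κ / 4 * n ^ M) := by
    refine le_trans hsum ?_
    gcongr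
  have h2 : (1 - γ / 4) * (M : ℝ) ^ s * q * n ^ M ≤ (M.descFactorial s : ℝ) * q * n ^ M := by
    have : 0 ≤ q := by linarith
    gcongr
  have h3 : (1 - γ / 4) * q ≤ (1 - γ) * q + (t + γ * κ / 4) := by
    have hpos : 0 < (M : ℝ) ^ s * n ^ M := by positivity
    apply le_of_mul_le_mul_right _ hpos
    calc (1 - γ / 4) * q * ((M : ℝ) ^ s * n ^ M) = (1 - γ / 4) * (M : ℝ) ^ s * q * n ^ M := by ring
      _ ≤ _ := le_trans h2 h1
      _ = _ := by ring
  nlinarith

end sampling2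

end Pool.Agent.H58.SS
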