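import Pool.Agent.H58.SS.Cop
import Pool.Agent.H58.SS.Samp

set_option autoImplicit false

/-!
Supersaturation of copies of an arbitrary graph `F` in graphs with `m` edges and many `s`-cliques.
-/

open Finset

namespace Pool.Agent.H58.SS

universe u v w

section mean

variable {U : Type w} [Fintype U] [DecidableEq U] {W : Type u} [Fintype W]

open scoped Classical in
/-- the mean number of homomorphisms into a sample of `M` vertices -/
lemma sum_hom (F : SimpleGraph U) (G : SimpleGraph W) (hn : 0 < Fintype.card W) (M : ℕ) (τ : ℝ)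
    (hτ : 0 ≤ τ)
    (h : cnt F G id < τ ^ (2 ^ Fintype.card U) * (Fintype.card W : ℝ) ^ (Fintype.card U)) :
    ∑ φ : Fin M → W, ((univ.filter fun g : U → Fin M => IsHom F G (φ ∘ g)).card : ℝ) ≤
      (M : ℝ) ^ (Fintype.card U) * τ * (Fintype.card W : ℝ) ^ M := by
  have hn' : (0 : ℝ) < Fintype.card W := by exact_mod_cast hn
  have h1 : ∀ g : U → Fin M, ((univ.filter fun φ : Fin M → W => IsHom F G (φ ∘ g)).card : ℝ) ≤
      τ * (Fintype.card W : ℝ) ^ M := by
    intro g
    have h2 := dens_pow F G hn g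
    rw [Fintype.card_fin] at h2
    have h3 : cnt F G id / (Fintype.card W : ℝ) ^ (Fintype.card U) < τ ^ (2 ^ Fintype.card U) := by
      rw [div_lt_iff₀ (by positivity)]
      exact h
    have h4 := lt_of_pow_lt_pow_left₀ _ hτ (lt_of_le_of_lt h2 h3)
    rw [div_lt_iff₀ (by positivity)] at h4
    refine le_trans (le_of_eq ?_) h4.le
    congr
    exact Subsingleton.elim _ _
  calc ∑ φ : Fin M → W, ((univ.filter fun g : U → Fin M => IsHom F G (φ ∘ g)).card : ℝ)
      = ∑ φ : Fin M → W, ∑ g : U → Fin M, (if IsHom F G (φ ∘ g) then (1 : ℝ) else 0) := by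
        refine sum_congr rfl fun φ _ => ?_
        rw [card_filter]
        push_cast
        rfl
    _ = ∑ g : U → Fin M, ∑ φ : Fin M → W, (if IsHom F G (φ ∘ g) then (1 : ℝ) else 0) := sum_comm
    _ = ∑ g : U → Fin M, ((univ.filter fun φ : Fin M → W => IsHom F G (φ ∘ g)).card : ℝ) := by
        refine sum_congr rfl fun φ _ => ?_
        rw [card_filter]
        push_cast
        rfl
    _ ≤ ∑ g : U → Fin M, τ * (Fintype.card W : ℝ) ^ M := sum_le_sum fun g _ => h1 g
    _ = _ := by
        rw [sum_const, card_univ, Fintype.card_fun, Fintype.card_fin, nsmul_eq_mul]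
        push_cast
        ring

end mean

section main

open scoped Classical in
theorem core {U : Type w} [Fintype U] [DecidableEq U] (F : SimpleGraph U)
    (hF : 2 ≤ F.edgeSet.ncard) (s : ℕ) (hs : 3 ≤ s) (ε : ℝ) (hε : 0 < ε) :
    ∃ δ : ℝ, 0 < δ ∧ ∃ m₀ : ℕ, ∀ m : ℕ, m₀ ≤ m →
      ∀ (V : Type u) [Fintype V] (G : SimpleGraph V), (oc G 2).card = 2 * m →
      ∀ B : ℕ, (∀ (n : ℕ) (K : SimpleGraph (Fin n)), K.edgeSet.ncard = m →
          F.Free K → (K.cliqueSet s).ncard ≤ B) →
        (B : ℝ) + ε * (Real.sqrt m) ^ s ≤ (G.cliqueSet s).ncard →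
        δ * (Real.sqrt m) ^ (Fintype.card U) ≤ copies F G := by
  set k := Fintype.card U with hk
  have hs0 : (0 : ℝ) < s := by positivity
  set η : ℝ := min 1 (ε / (8 * s)) with hηdef
  have hη0 : 0 < η := by
    rw [hηdef]; exact lt_min one_pos (by positivity)
  have hη1 : η ≤ 1 := min_le_left _ _
  have hηε : η ≤ ε / (8 * s) := min_le_right _ _
  have hηpow : 2 * s * η ^ (s - 2) ≤ ε / 4 := by
    have h1 : η ^ (s - 2) ≤ η := by
      calc η ^ (s - 2) ≤ η ^ 1 := pow_le_pow_of_le_one hη0.le hη1 (by omega)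
        _ = η := pow_one _
    calc 2 * s * η ^ (s - 2) ≤ 2 * s * (ε / (8 * s)) := by
          apply mul_le_mul_of_nonneg_left (h1.trans hηε) (by positivity)
      _ = ε / 4 := by field_simp; ring
  set C : ℝ := (2 / η) ^ s with hC
  have hC0 : 0 < C := by positivity
  set κ : ℝ := (3 * ε / 4) / C with hκdef
  have hκ0 : 0 < κ := by positivity
  set γ : ℝ := min (1 / 2) (ε / (4 * (2 * s + 1) * C)) with hγdef
  have hγ0 : 0 < γ := by
    rw [hγdef]; exact lt_min (by norm_num) (by positivity)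
  have hγ12 : γ ≤ 1 / 2 := min_le_left _ _
  have hγ1 : γ ≤ 1 := by linarith
  have hγC : (2 * s + 1) * γ * C ≤ ε / 4 := by
    have : γ ≤ ε / (4 * (2 * s + 1) * C) := min_le_right _ _
    calc (2 * s + 1) * γ * C ≤ (2 * s + 1) * (ε / (4 * (2 * s + 1) * C)) * C := by gcongr
      _ = ε / 4 := by field_simp
  obtain ⟨M, hM⟩ := exists_nat_ge (max 1 (max (s * s / (γ / 4)) (24 / (γ ^ 3 * κ ^ 3))))
  have hM1 : (1 : ℝ) ≤ M := (le_max_left _ _).trans hM
  have hMs : (s : ℝ) * s ≤ γ / 4 * M := by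
    have := ((le_max_left _ _).trans (le_max_right _ _)).trans hM
    rw [div_le_iff₀ (by positivity)] at this
    linarith
  have hM24 : 24 ≤ γ ^ 3 * κ ^ 3 * M := by
    have := ((le_max_right _ _).trans (le_max_right _ _)).trans hM
    rw [div_le_iff₀ (by positivity)] at this
    linarith
  have hMpos : 0 < M := by
    have : (0 : ℝ) < M := by linarith
    exact_mod_cast this
  set c₁ : ℝ := min 1 (3 * ε / 4) with hc₁
  have hc₁0 : 0 < c₁ := by rw [hc₁]; exact lt_min one_pos (by positivity)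
  have hc₁1 : c₁ ≤ 1 := min_le_left _ _
  have hc₁ε : c₁ ≤ 3 * ε / 4 := min_le_right _ _
  set Q : ℝ := (k.factorial : ℝ) with hQ
  have hQ0 : 0 < Q := by rw [hQ]; exact_mod_cast Nat.factorial_pos _
  have hMR : (0 : ℝ) < M := by linarith
  set τ : ℝ := γ * κ / (8 * (M : ℝ) ^ k) with hτ
  have hτ0 : 0 < τ := by positivity
  set σ : ℝ := min (1 / 2) (τ ^ (2 ^ k)) with hσ
  have hσ0 : 0 < σ := by rw [hσ]; exact lt_min (by norm_num) (by positivity)
  have hσ12 : σ ≤ 1 / 2 := min_le_left _ _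
  have hστ : σ ≤ τ ^ (2 ^ k) := min_le_right _ _
  set δ : ℝ := σ * c₁ ^ k / (2 * Q) with hδ
  have hδ0 : 0 < δ := by positivity
  obtain ⟨m₀, hm₀⟩ := exists_nat_ge (max 1 (max ((M / (γ * c₁)) ^ 2) ((2 * (k * k) / (σ * c₁)) ^ 2)))
  refine ⟨δ, hδ0, m₀, ?_⟩
  intro m hm V _ G hG B hB hks
  set x : ℝ := Real.sqrt m with hx
  have hmR : (m₀ : ℝ) ≤ m := by exact_mod_cast hm
  have hm1 : (1 : ℝ) ≤ m := ((le_max_left _ _).trans hm₀).trans hmR
  have hx2 : x ^ 2 = m := Real.sq_sqrt (by linarith)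
  have hx0 : 0 ≤ x := Real.sqrt_nonneg _
  have hx1 : 1 ≤ x := by
    by_contra h
    push Not at h
    nlinarith
  have hxpos : 0 < x := by linarith
  have hxM : M / (γ * c₁) ≤ x := by
    have h1 : (M / (γ * c₁)) ^ 2 ≤ x ^ 2 := by
      rw [hx2]; exact (((le_max_left _ _).trans (le_max_right _ _)).trans hm₀).trans hmR
    exact le_of_sq_le_sq h1 hx0
  have hxk : 2 * (k * k) / (σ * c₁) ≤ x := by
    have h1 : (2 * (k * k) / (σ * c₁)) ^ 2 ≤ x ^ 2 := by
      rw [hx2]; exact (((le_max_right _ _).trans (le_max_right _ _)).trans hm₀).trans hmR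
    exact le_of_sq_le_sq h1 hx0
  by_contra hcon
  push Not at hcon
  -- low degree deletion
  set D : ℝ := η * x with hD
  have hD0 : 0 < D := by positivity
  let φ₀ : {v : V // D < G.degree v} → V := Subtype.val
  set n : ℝ := (Fintype.card {v : V // D < G.degree v} : ℝ) with hn
  have hn0' : 0 ≤ n := by rw [hn]; positivity
  set G' := G.comap φ₀ with hG'
  have ha : ((oc G s).card : ℝ) ≤ (oc G' s).card + ε / 4 * x ^ s := by
    obtain ⟨s', rfl⟩ := Nat.exists_eq_add_of_le hs
    have h1 := lowdeg G (2 + s') D hD0.le (by omega)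
    have e1 : 2 + s' + 1 = 3 + s' := by omega
    rw [e1] at h1
    refine h1.trans ?_
    have h2 : (((2 + s' : ℕ) : ℝ) + 1) * (D ^ (2 + s' - 1) * (oc G 2).card)
        = (2 * ((3 + s' : ℕ) : ℝ) * η ^ (3 + s' - 2)) * x ^ (3 + s') := by
      rw [hG, hD]
      have e2 : 2 + s' - 1 = s' + 1 := by omega
      have e3 : 3 + s' - 2 = s' + 1 := by omega
      rw [e2, e3]
      push_cast
      rw [← hx2]
      ring
    have h3 : (((2 + s' : ℕ) : ℝ) + 1) * (D ^ (2 + s' - 1) * (oc G 2).card)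
        ≤ ε / 4 * x ^ (3 + s') := by
      rw [h2]
      gcongr
    linarith
  have hSfac : (1 : ℝ) ≤ (s.factorial : ℝ) := by exact_mod_cast Nat.one_le_iff_ne_zero.2 (Nat.factorial_ne_zero s)
  have hb : (s.factorial : ℝ) * B + ε * x ^ s ≤ (oc G s).card := by
    have h1 : ((oc G s).card : ℝ) = s.factorial * (G.cliqueSet s).ncard := by
      exact_mod_cast oc_card G s
    rw [h1]
    have hxs : 0 < x ^ s := by positivity
    calc (s.factorial : ℝ) * B + ε * x ^ s ≤ (s.factorial : ℝ) * B + s.factorial * (ε * x ^ s) := by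
          nlinarith [mul_pos hε hxs]
      _ = s.factorial * (B + ε * x ^ s) := by ring
      _ ≤ _ := by gcongr
  have hxs : 0 < x ^ s := by positivity
  have hBnn : 0 ≤ (s.factorial : ℝ) * B := by positivity
  have hc : n ≤ (2 / η) * x := by
    have h1 := card_high G D
    rw [hG] at h1
    push_cast at h1
    rw [← hx2] at h1
    have h2 : n * (η * x) ≤ 2 * x ^ 2 := h1
    have h3 : n * η ≤ 2 * x := by
      apply le_of_mul_le_mul_right _ hxpos
      calc n * η * x = n * (η * x) := by ring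
        _ ≤ 2 * x ^ 2 := h2
        _ = 2 * x * x := by ring
    calc n = n * η / η := by field_simp
      _ ≤ 2 * x / η := by gcongr
      _ = _ := by ring
  have hd : 3 * ε / 4 * x ^ s ≤ (oc G' s).card := by linarith
  have hnC : n ^ s ≤ C * x ^ s := by
    rw [hC, ← mul_pow]
    exact pow_le_pow_left₀ hn0' hc s
  have hle : ((oc G' s).card : ℝ) ≤ n ^ s := by
    rw [hn]; exact_mod_cast oc_card_le G' s
  have he : c₁ * x ≤ n := by
    by_contra h
    push Not at h
    have h1 : n ^ s < (c₁ * x) ^ s := pow_lt_pow_left₀ h hn0' (by omega)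
    have h2 : (c₁ * x) ^ s ≤ 3 * ε / 4 * x ^ s := by
      rw [mul_pow]
      have : c₁ ^ s ≤ c₁ := by
        calc c₁ ^ s ≤ c₁ ^ 1 := pow_le_pow_of_le_one hc₁0.le hc₁1 (by omega)
          _ = c₁ := pow_one _
      have : c₁ ^ s ≤ 3 * ε / 4 := this.trans hc₁ε
      gcongr
    linarith
  have hnpos : 0 < n := lt_of_lt_of_le (by positivity) he
  have hnposN : 0 < Fintype.card {v : V // D < G.degree v} := by
    have := hnpos
    rw [hn] at this
    exact_mod_cast this
  have hf : κ * n ^ s ≤ (oc G' s).card := by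
    calc κ * n ^ s ≤ κ * (C * x ^ s) := by gcongr
      _ = 3 * ε / 4 * x ^ s := by rw [hκdef]; field_simp
      _ ≤ _ := hd
  have hkn : (k : ℝ) * k ≤ σ / 2 * n := by
    rw [div_le_iff₀ (by positivity)] at hxk
    have : σ * (c₁ * x) ≤ σ * n := by gcongr
    linarith
  have hcnt : cnt F G' id < τ ^ (2 ^ k) * n ^ k := by
    have h1 : cnt F G' id ≤ ((univ.filter fun f : U → {v : V // D < G.degree v} =>
        IsHom F G' f ∧ Function.Injective f).card : ℝ) + σ / 2 * n ^ k := by
      refine (cnt_id_le F G' σ hσ0 hσ12 hnposN hkn).trans (le_of_eq ?_)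
      congr
    have h2 : (univ.filter fun f : U → {v : V // D < G.degree v} =>
        IsHom F G' f ∧ Function.Injective f).card ≤
        (univ.filter fun f : U → V => IsHom F G f ∧ Function.Injective f).card := by
      apply card_le_card_of_injOn (fun f => φ₀ ∘ f)
      · intro f hf
        have hf := (mem_filter.1 (mem_coe.1 hf)).2
        exact mem_coe.2 (mem_filter.2 ⟨mem_univ _, fun a b hab => hf.1 a b hab,
          Subtype.val_injective.comp hf.2⟩)
      · intro f _ f' _ h
        exact Subtype.val_injective.comp_left h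
    have h3' : (univ.filter fun f : U → V => IsHom F G f ∧ Function.Injective f).card ≤
        k.factorial * copies F G := by
      refine le_trans (le_of_eq ?_) (inj_le F G)
      congr
      exact Subsingleton.elim _ _
    have h3 := h2.trans h3'
    have h4 : ((univ.filter fun f : U → {v : V // D < G.degree v} =>
        IsHom F G' f ∧ Function.Injective f).card : ℝ) ≤ Q * copies F G := by
      rw [hQ]; exact_mod_cast h3
    have h5 : Q * copies F G < σ / 2 * n ^ k := by
      calc Q * (copies F G : ℝ) < Q * (δ * x ^ k) := by gcongr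
        _ = σ / 2 * (c₁ * x) ^ k := by
            rw [hδ, mul_pow]
            field_simp
        _ ≤ σ / 2 * n ^ k := by gcongr
    calc cnt F G' id < σ / 2 * n ^ k + σ / 2 * n ^ k := by linarith
      _ = σ * n ^ k := by ring
      _ ≤ _ := by gcongr
  have hZ := sum_hom F G' hnposN M τ hτ0.le hcnt
  obtain ⟨φ, hφZ, hφe, hφs⟩ := sampling G' s M γ κ (by omega) hγ0 hγ1 hκ0 hnposN hf hMpos
    hMs hM24 (fun φ => (univ.filter fun g : U → Fin M => IsHom F G' (φ ∘ g)).card)
    ((M : ℝ) ^ k * τ) (by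
      rw [hτ]
      have : (M : ℝ) ^ k * (γ * κ / (8 * (M : ℝ) ^ k)) = γ * κ / 8 := by
        field_simp
      rw [this]
      have := mul_pos hγ0 hκ0
      linarith) hZ
  rw [← hn] at hφe hφs
  set H := G'.comap φ with hH
  -- blow-up factor
  set t : ℕ := ⌊n / (M * (1 + γ))⌋₊ with ht
  have ht1 : (t : ℝ) ≤ n / (M * (1 + γ)) := Nat.floor_le (by positivity)
  have ht2 : n / (M * (1 + γ)) < t + 1 := Nat.lt_floor_add_one _
  have hMγn : (M : ℝ) ≤ γ * n := by
    rw [div_le_iff₀ (by positivity)] at hxM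
    calc (M : ℝ) ≤ x * (γ * c₁) := hxM
      _ = γ * (c₁ * x) := by ring
      _ ≤ γ * n := by gcongr
  have htM : (1 - 2 * γ) * n ≤ t * M := by
    have h1 : n / (1 + γ) < (t + 1) * M := by
      have : n / (M * (1 + γ)) * M < (t + 1) * M := by gcongr
      calc n / (1 + γ) = n / (M * (1 + γ)) * M := by field_simp
        _ < _ := this
    have h2 : (1 - γ) * n ≤ n / (1 + γ) := by
      rw [le_div_iff₀ (by positivity)]
      nlinarith [mul_pos (mul_pos hγ0 hγ0) hnpos]
    nlinarith
  let K0 : SimpleGraph (Fin M × Fin t) := H.comap (Prod.fst : Fin M × Fin t → Fin M)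
  have hK0e : (oc K0 2).card ≤ 2 * m := by
    have h1 : (oc K0 2).card = t ^ 2 * (oc H 2).card := oc_blowup H 2 t
    have h2 : ((oc G' 2).card : ℝ) ≤ 2 * m := by
      have h3 := oc_comap_le G φ₀ Subtype.val_injective 2
      rw [hG] at h3
      exact_mod_cast h3
    have h4 : ((oc K0 2).card : ℝ) ≤ 2 * m := by
      have hn2 : 0 < n ^ 2 := by positivity
      apply le_of_mul_le_mul_right _ hn2
      rw [h1]
      push_cast
      calc (t : ℝ) ^ 2 * (oc H 2).card * n ^ 2 = (t : ℝ) ^ 2 * ((oc H 2).card * n ^ 2) := by ring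
        _ ≤ (t : ℝ) ^ 2 * ((1 + γ) * (oc G' 2).card * (M : ℝ) ^ 2) := by gcongr
        _ ≤ (n / (M * (1 + γ))) ^ 2 * ((1 + γ) * (oc G' 2).card * (M : ℝ) ^ 2) := by gcongr
        _ = n ^ 2 * (oc G' 2).card / (1 + γ) := by field_simp
        _ ≤ n ^ 2 * (oc G' 2).card / 1 := by
            apply div_le_div_of_nonneg_left (by positivity) one_pos (by linarith)
        _ = (oc G' 2).card * n ^ 2 := by ring
        _ ≤ 2 * m * n ^ 2 := by gcongr
    exact_mod_cast h4
  have hK0free : ∀ f : U → Fin M × Fin t, ¬ IsHom F K0 f := by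
    intro f hf
    have h1 := filter_eq_empty_iff.1 (card_eq_zero.1 hφZ) (mem_univ (Prod.fst ∘ f))
    exact h1 hf
  obtain ⟨n', K, hK1, hK2, hK3⟩ := pad F hF K0 s m (by omega) hK0e hK0free
  have hBK : (K0.cliqueSet s).ncard ≤ B := hK3.trans (hB n' K hK1 hK2)
  have h5 : ((t : ℝ)) ^ s * (oc H s).card ≤ s.factorial * B := by
    have h1 : (oc K0 s).card = t ^ s * (oc H s).card := oc_blowup H s t
    have h2 := oc_card K0 s
    have h3 : t ^ s * (oc H s).card ≤ s.factorial * B := by
      rw [← h1, h2]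
      exact Nat.mul_le_mul_left _ hBK
    exact_mod_cast h3
  have h6 : (1 - γ) * (oc G' s).card * ((t : ℝ) * M) ^ s ≤ (s.factorial * B) * n ^ s := by
    calc (1 - γ) * (oc G' s).card * ((t : ℝ) * M) ^ s
        = (t : ℝ) ^ s * ((1 - γ) * (oc G' s).card * (M : ℝ) ^ s) := by rw [mul_pow]; ring
      _ ≤ (t : ℝ) ^ s * ((oc H s).card * n ^ s) := by gcongr
      _ = ((t : ℝ) ^ s * (oc H s).card) * n ^ s := by ring
      _ ≤ _ := by gcongr
  have h7 : (1 - γ) * (oc G' s).card * ((1 - 2 * γ) ^ s) ≤ s.factorial * B := by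
    have hns : 0 < n ^ s := by positivity
    apply le_of_mul_le_mul_right _ hns
    refine le_trans ?_ h6
    have h12 : 0 ≤ 1 - 2 * γ := by linarith
    have h1γ : 0 ≤ 1 - γ := by linarith
    calc (1 - γ) * (oc G' s).card * ((1 - 2 * γ) ^ s) * n ^ s
        = (1 - γ) * (oc G' s).card * ((1 - 2 * γ) * n) ^ s := by rw [mul_pow]; ring
      _ ≤ _ := by
          apply mul_le_mul_of_nonneg_left _ (by positivity)
          exact pow_le_pow_left₀ (by positivity) htM s
  have h8 : (1 - (2 * s + 1) * γ) * (oc G' s).card ≤ s.factorial * B := by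
    refine le_trans ?_ h7
    have hb : 1 + (s : ℝ) * (-(2 * γ)) ≤ (1 + (-(2 * γ))) ^ s := by
      apply one_add_mul_le_pow
      linarith
    have h1γ : 0 ≤ 1 - γ := by linarith
    have h9 : 1 - (2 * s + 1) * γ ≤ (1 - γ) * (1 - 2 * γ) ^ s := by
      calc 1 - (2 * s + 1) * γ ≤ (1 - γ) * (1 + (s : ℝ) * (-(2 * γ))) := by
            nlinarith [mul_pos hs0 (mul_pos hγ0 hγ0)]
        _ ≤ (1 - γ) * (1 + (-(2 * γ))) ^ s := by gcongr
        _ = _ := by ring_nf
    calc (1 - (2 * s + 1) * γ) * (oc G' s).card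
        ≤ ((1 - γ) * (1 - 2 * γ) ^ s) * (oc G' s).card := by gcongr
      _ = _ := by ring
  have h10 : (2 * s + 1) * γ * (oc G' s).card ≤ ε / 4 * x ^ s := by
    calc (2 * s + 1) * γ * (oc G' s).card ≤ (2 * s + 1) * γ * (C * x ^ s) := by
          gcongr
          exact hle.trans hnC
      _ = ((2 * s + 1) * γ * C) * x ^ s := by ring
      _ ≤ ε / 4 * x ^ s := by gcongr
  nlinarith [mul_pos hε hxs]

end main

end Pool.Agent.H58.SS
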