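import Pool.Agent.H58.SS.Base

set_option autoImplicit false

/-!
Densities of homomorphisms of quotients of a graph `F`.
-/

open Finset

namespace Pool.Agent.H58.SS

universe u v w

/-- `f` maps the edges of `F` to edges of `G` -/
def IsHom {U : Type w} {V : Type u} (F : SimpleGraph U) (G : SimpleGraph V) (f : U → V) : Prop :=
  ∀ a b, F.Adj a b → G.Adj (f a) (f b)

section swap

variable {U : Type w} {W : Type u} [Fintype U] [DecidableEq U] [Fintype W]

lemma upd_sum (x : U) (Φ : (U → W) → ℝ) :
    ∑ φ : U → W, ∑ w : W, Φ (Function.update φ x w) = Fintype.card W * ∑ φ : U → W, Φ φ := by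
  have h1 : ∑ φ : U → W, ∑ w : W, Φ (Function.update φ x w) =
      ∑ p : (U → W) × W, Φ (Function.update p.1 x p.2) := by
    rw [Fintype.sum_prod_type]
  have h2 : (Fintype.card W : ℝ) * ∑ φ : U → W, Φ φ = ∑ p : (U → W) × W, Φ p.1 := by
    rw [Fintype.sum_prod_type, mul_sum]
    refine sum_congr rfl fun φ _ => ?_
    show (Fintype.card W : ℝ) * Φ φ = ∑ _y : W, Φ φ
    rw [sum_const, card_univ, nsmul_eq_mul]
  rw [h1, h2]
  refine Fintype.sum_bijective (fun p : (U → W) × W => (Function.update p.1 x p.2, p.1 x)) ?_ _ _
    (fun p => rfl)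
  refine Function.Involutive.bijective fun p => ?_
  simp

lemma cs_step (f : (U → W) → ℝ) (x a : U) (hxa : x ≠ a)
    (hf : ∀ φ w, f (Function.update φ a w) = f φ) :
    (∑ φ, f φ) ^ 2 ≤ (Fintype.card W : ℝ) ^ (Fintype.card U) *
      ∑ φ, f φ * f (Function.update φ x (φ a)) := by
  rcases Nat.eq_zero_or_pos (Fintype.card W) with h0 | hn
  · have hW : IsEmpty W := Fintype.card_eq_zero_iff.1 h0
    have hUW : IsEmpty (U → W) := ⟨fun φ => hW.false (φ x)⟩
    simp
  set n : ℝ := (Fintype.card W : ℝ) with hndef
  have hn' : 0 < n := by rw [hndef]; exact_mod_cast hn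
  let h : (U → W) → ℝ := fun φ => ∑ w, f (Function.update φ x w)
  have e1 : ∑ φ, h φ = n * ∑ φ, f φ := upd_sum x f
  have e2 : (∑ φ, h φ) ^ 2 ≤ n ^ (Fintype.card U) * ∑ φ, h φ ^ 2 := by
    have := sq_sum_le_card_mul_sum_sq (s := (univ : Finset (U → W))) (f := h)
    rw [card_univ, Fintype.card_fun] at this
    push_cast at this
    exact this
  have e3 : ∑ φ, h φ ^ 2 = n ^ 2 * ∑ φ, f φ * f (Function.update φ x (φ a)) := by
    set g : (U → W) → ℝ := fun ψ => f ψ * f (Function.update ψ x (ψ a)) with hg
    have s1 : ∑ φ, ∑ w₁, ∑ w₂, g (Function.update (Function.update φ x w₁) a w₂) =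
        n * (n * ∑ φ, g φ) := by
      have t1 := upd_sum x (fun ψ : U → W => ∑ w₂, g (Function.update ψ a w₂))
      rw [t1, upd_sum a g]
    have s2 : ∀ φ : U → W, h φ ^ 2 =
        ∑ w₁, ∑ w₂, g (Function.update (Function.update φ x w₁) a w₂) := by
      intro φ
      rw [sq]
      show (∑ w, f (Function.update φ x w)) * (∑ w, f (Function.update φ x w)) = _
      rw [sum_mul_sum]
      refine sum_congr rfl fun w₁ _ => sum_congr rfl fun w₂ _ => ?_
      simp only [hg]
      rw [hf]
      congr 1
      rw [Function.update_self, Function.update_comm hxa, Function.update_idem,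
        Function.update_comm hxa.symm, hf]
    simp_rw [s2]
    rw [s1]
    ring
  rw [e1, e3] at e2
  have h5 : 0 < n ^ 2 := by positivity
  apply le_of_mul_le_mul_left _ h5
  calc n ^ 2 * (∑ φ, f φ) ^ 2 = (n * ∑ φ, f φ) ^ 2 := by ring
    _ ≤ _ := e2
    _ = _ := by ring

open scoped Classical in
/-- the number of `φ` such that `φ ∘ c` is a homomorphism -/
noncomputable def cnt (F : SimpleGraph U) (G : SimpleGraph W) (c : U → U) : ℝ :=
  ∑ φ : U → W, if IsHom F G (φ ∘ c) then 1 else 0

lemma cnt_nonneg (F : SimpleGraph U) (G : SimpleGraph W) (c : U → U) : 0 ≤ cnt F G c :=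
  sum_nonneg fun φ _ => by split_ifs <;> norm_num

lemma cnt_le (F : SimpleGraph U) (G : SimpleGraph W) (c : U → U) :
    cnt F G c ≤ (Fintype.card W : ℝ) ^ (Fintype.card U) := by
  classical
  calc cnt F G c ≤ ∑ φ : U → W, (1 : ℝ) := sum_le_sum fun φ _ => by split_ifs <;> norm_num
    _ = _ := by
      rw [sum_const, card_univ, Fintype.card_fun, nsmul_eq_mul, mul_one]
      push_cast
      rfl

lemma cnt_step (F : SimpleGraph U) (G : SimpleGraph W) (c : U → U) (a u₀ : U)
    (ha : ∀ u, c u ≠ a) :
    cnt F G c ^ 2 ≤ (Fintype.card W : ℝ) ^ (Fintype.card U) *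
      cnt F G (Function.update c u₀ a) := by
  classical
  refine (cs_step (fun φ : U → W => if IsHom F G (φ ∘ c) then (1 : ℝ) else 0) (c u₀) a (ha u₀)
    (fun φ w => ?_)).trans ?_
  · have : Function.update φ a w ∘ c = φ ∘ c := by
      funext u
      exact Function.update_of_ne (ha u) _ _
    simp only [this]
  · refine mul_le_mul_of_nonneg_left (sum_le_sum fun φ _ => ?_) (by positivity)
    by_cases h1 : IsHom F G (φ ∘ c)
    · by_cases h2 : IsHom F G (Function.update φ (c u₀) (φ a) ∘ c)
      · have h3 : IsHom F G (φ ∘ Function.update c u₀ a) := by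
          have key : ∀ v, F.Adj u₀ v → G.Adj (φ a) (φ (c v)) := by
            intro v hv
            have h4 := h2 u₀ v hv
            have h5 : c v ≠ c u₀ := by
              intro h
              have h6 := h1 u₀ v hv
              simp only [Function.comp_apply, h] at h6
              exact G.loopless.irrefl _ h6
            simp only [Function.comp_apply, Function.update_self] at h4
            rwa [Function.update_of_ne h5] at h4
          intro u v huv
          simp only [Function.comp_apply]
          by_cases hu : u = u₀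
          · subst hu
            have hv : v ≠ u := huv.ne'
            rw [Function.update_self, Function.update_of_ne hv]
            exact key v huv
          · by_cases hv : v = u₀
            · subst hv
              rw [Function.update_self, Function.update_of_ne hu]
              exact (key u huv.symm).symm
            · rw [Function.update_of_ne hu, Function.update_of_ne hv]
              exact h1 u v huv
        rw [if_pos h1, if_pos h2, if_pos h3, one_mul]
      · rw [if_neg h2, mul_zero]
        split_ifs <;> norm_num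
    · rw [if_neg h1, zero_mul]
      split_ifs <;> norm_num

lemma cnt_bij (F : SimpleGraph U) (G : SimpleGraph W) (c : U → U) (hc : Function.Bijective c) :
    cnt F G c = cnt F G id := by
  classical
  unfold cnt
  refine Fintype.sum_bijective (fun φ : U → W => φ ∘ c) ?_ _ _ (fun φ => by simp)
  exact ⟨hc.surjective.injective_comp_right, fun ψ => by
    obtain ⟨d, hd, -⟩ := Function.bijective_iff_has_inverse.1 hc
    exact ⟨ψ ∘ d, by funext u; simp [hd u]⟩⟩

/-- the density of a quotient -/
lemma cnt_pow (F : SimpleGraph U) (G : SimpleGraph W) (hn : 0 < Fintype.card W) (k : ℕ) :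
    ∀ c : U → U, Fintype.card U ≤ (univ.image c).card + k →
      (cnt F G c / (Fintype.card W : ℝ) ^ (Fintype.card U)) ^ (2 ^ k) ≤
        cnt F G id / (Fintype.card W : ℝ) ^ (Fintype.card U) := by
  classical
  have hn' : (0 : ℝ) < Fintype.card W := by exact_mod_cast hn
  have hN : (0 : ℝ) < (Fintype.card W : ℝ) ^ (Fintype.card U) := by positivity
  induction k with
  | zero =>
    intro c hc
    have h1 : univ.image c = univ := by
      apply eq_univ_of_card
      have := card_le_univ (univ.image c)
      omega
    have h2 : Function.Surjective c := by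
      intro u
      have : u ∈ univ.image c := by rw [h1]; exact mem_univ u
      obtain ⟨v, -, hv⟩ := mem_image.1 this
      exact ⟨v, hv⟩
    rw [pow_zero, pow_one, cnt_bij F G c ⟨Finite.injective_iff_surjective.2 h2, h2⟩]
  | succ k ih =>
    intro c hc
    by_cases h0 : Fintype.card U ≤ (univ.image c).card + k
    · refine le_trans ?_ (ih c h0)
      refine pow_le_pow_of_le_one (div_nonneg (cnt_nonneg F G c) hN.le)
        (div_le_one_of_le₀ (cnt_le F G c) hN.le) ?_
      exact Nat.pow_le_pow_right (by norm_num) (Nat.le_succ k)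
    · have h1 : ¬ Function.Surjective c := by
        intro h
        have : univ.image c = univ := image_univ_of_surjective h
        rw [this, card_univ] at h0
        omega
      have h2 : ¬ Function.Injective c := fun h => h1 (Finite.injective_iff_surjective.1 h)
      obtain ⟨a, ha⟩ : ∃ a, ∀ u, c u ≠ a := by
        by_contra hcon
        push Not at hcon
        exact h1 hcon
      obtain ⟨u₀, u₁, he, hne⟩ : ∃ u₀ u₁, c u₀ = c u₁ ∧ u₀ ≠ u₁ := by
        by_contra hcon
        push Not at hcon
        exact h2 fun u v h => hcon u v h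
      have h3 : insert a (univ.image c) ⊆ univ.image (Function.update c u₀ a) := by
        intro y hy
        rcases mem_insert.1 hy with rfl | hy
        · exact mem_image.2 ⟨u₀, mem_univ _, Function.update_self _ _ _⟩
        · obtain ⟨v, -, rfl⟩ := mem_image.1 hy
          by_cases hv : v = u₀
          · refine mem_image.2 ⟨u₁, mem_univ _, ?_⟩
            rw [Function.update_of_ne hne.symm, hv, he]
          · refine mem_image.2 ⟨v, mem_univ _, ?_⟩
            rw [Function.update_of_ne hv]
      have h4 : a ∉ univ.image c := by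
        intro h
        obtain ⟨v, -, hv⟩ := mem_image.1 h
        exact ha v hv
      have h5 := card_le_card h3
      rw [card_insert_of_notMem h4] at h5
      have h6 := ih (Function.update c u₀ a) (by omega)
      refine le_trans ?_ h6
      rw [pow_succ', pow_mul]
      refine pow_le_pow_left₀ (by positivity) ?_ _
      rw [div_pow, div_le_div_iff₀ (by positivity) hN]
      have h7 := cnt_step F G c a u₀ ha
      calc cnt F G c ^ 2 * (Fintype.card W : ℝ) ^ (Fintype.card U)
          ≤ ((Fintype.card W : ℝ) ^ (Fintype.card U) * cnt F G (Function.update c u₀ a)) *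
            (Fintype.card W : ℝ) ^ (Fintype.card U) := mul_le_mul_of_nonneg_right h7 hN.le
        _ = _ := by ring

open scoped Classical in
/-- the same for maps from `U` to any finite set -/
lemma dens_pow (F : SimpleGraph U) (G : SimpleGraph W) (hn : 0 < Fintype.card W) {α : Type}
    [Fintype α] (g : U → α) :
    (((univ.filter fun φ : α → W => IsHom F G (φ ∘ g)).card : ℝ) /
      (Fintype.card W : ℝ) ^ (Fintype.card α)) ^ (2 ^ (Fintype.card U)) ≤
        cnt F G id / (Fintype.card W : ℝ) ^ (Fintype.card U) := by
  have hn' : (0 : ℝ) < Fintype.card W := by exact_mod_cast hn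
  let g' : U → Set.range g := fun u => ⟨g u, Set.mem_range_self u⟩
  let rep : Set.range g → U := fun q => q.2.choose
  have hrep : ∀ q, g (rep q) = q.1 := fun q => q.2.choose_spec
  have hri : Function.Injective rep := fun q q' h => by
    apply Subtype.ext
    rw [← hrep q, h, hrep q']
  let P : Finset (Set.range g → W) := univ.filter fun ψ => IsHom F G (ψ ∘ g')
  have c1 := card_comp (W := W) (Subtype.val : Set.range g → α) Subtype.val_injective P
  have c2 := card_comp (W := W) rep hri P
  have e1 : (univ.filter fun φ : α → W => φ ∘ (Subtype.val : Set.range g → α) ∈ P) =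
      univ.filter fun φ : α → W => IsHom F G (φ ∘ g) := by
    ext φ
    simp only [P, mem_filter, mem_univ, true_and]
    rfl
  have e2 : ((univ.filter fun φ : U → W => φ ∘ rep ∈ P).card : ℝ) = cnt F G (rep ∘ g') := by
    unfold cnt
    rw [card_filter]
    push_cast
    refine sum_congr rfl fun φ _ => ?_
    simp only [P, mem_filter, mem_univ, true_and]
    rfl
  rw [e1] at c1
  have c1' : ((univ.filter fun φ : α → W => IsHom F G (φ ∘ g)).card : ℝ) *
      (Fintype.card W : ℝ) ^ (Fintype.card (Set.range g)) =
        (P.card : ℝ) * (Fintype.card W : ℝ) ^ (Fintype.card α) := by exact_mod_cast c1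
  have c2' : cnt F G (rep ∘ g') * (Fintype.card W : ℝ) ^ (Fintype.card (Set.range g)) =
        (P.card : ℝ) * (Fintype.card W : ℝ) ^ (Fintype.card U) := by
    rw [← e2]
    exact_mod_cast c2
  have h1 : ((univ.filter fun φ : α → W => IsHom F G (φ ∘ g)).card : ℝ) /
      (Fintype.card W : ℝ) ^ (Fintype.card α) =
      cnt F G (rep ∘ g') / (Fintype.card W : ℝ) ^ (Fintype.card U) := by
    have hq : (0 : ℝ) < (Fintype.card W : ℝ) ^ (Fintype.card (Set.range g)) := by positivity
    rw [div_eq_div_iff (by positivity) (by positivity)]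
    apply mul_right_cancel₀ hq.ne'
    calc _ = (((univ.filter fun φ : α → W => IsHom F G (φ ∘ g)).card : ℝ) *
        (Fintype.card W : ℝ) ^ (Fintype.card (Set.range g))) *
          (Fintype.card W : ℝ) ^ (Fintype.card U) := by ring
      _ = (P.card * (Fintype.card W : ℝ) ^ (Fintype.card U)) *
          (Fintype.card W : ℝ) ^ (Fintype.card α) := by rw [c1']; ring
      _ = (cnt F G (rep ∘ g') * (Fintype.card W : ℝ) ^ (Fintype.card (Set.range g))) *
          (Fintype.card W : ℝ) ^ (Fintype.card α) := by rw [c2']
      _ = _ := by ring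
  rw [h1]
  exact cnt_pow F G hn (Fintype.card U) (rep ∘ g') (Nat.le_add_left _ _)

end swap

end Pool.Agent.H58.SS
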